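import Pool.Agent.W370.Hughes.Run

set_option autoImplicit false
set_option linter.unusedSectionVars false

/-! # The monoid generated by the exponentials, and its basic relations -/

namespace Pool.Agent.W370.Hughes

open NC Tr

variable (p : ℕ) [Fact p.Prime]

/-- truncated exponential of the letter combination `v` (in characteristic `p`, degrees `< p`) -/
def expo (v : Bool → ZMod p) : NC (ZMod p) := mon v (fun n => ((n.factorial : ZMod p))⁻¹)

/-- the monoid generated by the exponentials -/
def QQ : Submonoid (NC (ZMod p)) := Submonoid.closure (Set.range (expo p))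

variable {p}

theorem fact_ne_zero {n : ℕ} (h : n < p) : (n.factorial : ZMod p) ≠ 0 := by
  intro h0
  rw [ZMod.natCast_eq_zero_iff] at h0
  exact absurd ((Fact.out : p.Prime).dvd_factorial.1 h0) (by omega)

theorem nat_ne_zero {n : ℕ} (h0 : 0 < n) (h : n < p) : (n : ZMod p) ≠ 0 := by
  intro h1
  rw [ZMod.natCast_eq_zero_iff] at h1
  exact absurd (Nat.le_of_dvd h0 h1) (by omega)

theorem expo_nil (v : Bool → ZMod p) : expo p v [] = 1 := by simp [expo, mon]
theorem expo_single (v : Bool → ZMod p) (x : Bool) : expo p v [x] = v x := by simp [expo, mon]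

theorem sb_expo (s : Bool) (v : Bool → ZMod p) :
    sb s (expo p v) = expo p (fun x => v s + (if x = s then 0 else v x)) := sb_mon s v _

theorem sb_mem (s : Bool) (c : NC (ZMod p)) (hc : c ∈ QQ p) : sb s c ∈ QQ p := by
  have : QQ p ≤ (QQ p).comap (sbHom s) := by
    rw [QQ, Submonoid.closure_le]
    rintro _ ⟨v, rfl⟩
    show sb s (expo p v) ∈ Submonoid.closure (Set.range (expo p))
    rw [sb_expo]
    exact Submonoid.subset_closure ⟨_, rfl⟩
  exact this hc

/-- the relations -/
structure Good (c : NC (ZMod p)) : Prop where
  nil : c [] = 1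
  rel : ∀ w : List Bool, w.count false ≤ 1 → w.length + 1 < p → D c w = c [true] * c w
  top : ∃ e : ZMod p, ∀ w : List Bool, w.count false = 1 → w.length + 1 = p →
    D c w = c [true] * c w + e

theorem mul_single (c d : NC (ZMod p)) (hc : c [] = 1) (hd : d [] = 1) (x : Bool) :
    (c * d) [x] = c [x] + d [x] := by
  rw [mul_cons, mul_nil, hc, hd, der_apply]; ring

theorem D_one : D (1 : NC (ZMod p)) = 0 := by
  have := D_mul (1 : NC (ZMod p)) 1
  rw [one_mul, mul_one] at this
  simpa using this

theorem good_one : Good (1 : NC (ZMod p)) where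
  nil := rfl
  rel := fun w _ _ => by rw [D_one, one_cons]; simp
  top := ⟨0, fun w _ _ => by rw [D_one, one_cons]; simp⟩

theorem list_word (v : Bool → ZMod p) (w : List Bool) :
    (w.map v).prod = v false ^ w.count false * v true ^ w.count true := by
  induction w with
  | nil => simp
  | cons x w ih => cases x <;> simp [ih, pow_succ] <;> ring

theorem good_expo (v : Bool → ZMod p) : Good (expo p v) where
  nil := expo_nil v
  rel := fun w _ h => by
    rw [expo, D_mon]
    simp only [mon]
    have h1 := fact_ne_zero (p := p) (n := w.length) (by omega)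
    have h2 := nat_ne_zero (p := p) (n := w.length + 1) (by omega) h
    simp only [List.map_cons, List.map_nil, List.prod_cons, List.prod_nil, List.length_cons,
      List.length_nil, Nat.factorial_succ, Nat.factorial_zero]
    push_cast at h2 ⊢
    field_simp
  top := by
    refine ⟨- (v true * (v false * v true ^ (p - 2) * ((p - 1).factorial : ZMod p)⁻¹)), fun w hw h => ?_⟩
    rw [expo, D_mon, h]
    have h0 : ((w.length : ZMod p) + 1) = 0 := by
      have : ((w.length + 1 : ℕ) : ZMod p) = 0 := by rw [h]; simp
      simpa using this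
    have hl : w.length = p - 1 := by omega
    have hc : w.count true = p - 2 := by
      have := List.count_true_add_count_false w
      omega
    rw [h0]
    simp only [mon, list_word, hw, hc, hl]
    simp

theorem good_mul (c d : NC (ZMod p)) (hc : Good c) (hd : Good d) : Good (c * d) := by
  have key : ∀ w : List Bool, D (c * d) w = (c * d) [true] * (c * d) w
      + ((D c - c [true] • c) * d) w + (c * (D d - d [true] • d)) w := by
    intro w
    rw [mul_single c d hc.nil hd.nil, D_mul, sub_mul, mul_sub, smul_mul_assoc, mul_smul_comm]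
    simp only [NC.add_apply, NC.sub_apply, NC.smul_apply]
    ring
  have hsub : ∀ (f : NC (ZMod p)), Good f → ∀ u : List Bool, u.count false ≤ 1 → u.length + 1 < p →
      (D f - f [true] • f) u = 0 := by
    intro f hf u h1 h2
    rw [NC.sub_apply, NC.smul_apply, hf.rel u h1 h2, sub_self]
  have hcnt : ∀ u v w : List Bool, u ++ v = w → u.count false + v.count false = w.count false ∧
      u.length + v.length = w.length := by
    intro u v w h
    rw [← List.count_append, ← List.length_append, h]
    exact ⟨rfl, rfl⟩
  have hpos : ∀ v : List Bool, v ≠ [] → 0 < v.length := fun v hv => List.length_pos_of_ne_nil hv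
  have left : ∀ w : List Bool, w.count false ≤ 1 → w.length < p →
      ((D c - c [true] • c) * d) w = (D c - c [true] • c) w * d [] := by
    intro w h1 h2
    refine mul_eq_left w _ _ (fun u v huv hv => ?_)
    obtain ⟨e1, e2⟩ := hcnt u v w huv
    have := hpos v hv
    exact hsub c hc u (by omega) (by omega)
  have right : ∀ w : List Bool, w.count false ≤ 1 → w.length < p →
      (c * (D d - d [true] • d)) w = c [] * (D d - d [true] • d) w := by
    intro w h1 h2
    refine mul_eq_right w _ _ (fun u v huv hu => ?_)
    obtain ⟨e1, e2⟩ := hcnt u v w huv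
    have := hpos u hu
    exact hsub d hd v (by omega) (by omega)
  refine ⟨by rw [mul_nil, hc.nil, hd.nil, one_mul], ?_, ?_⟩
  · intro w h1 h2
    rw [key, left w h1 (by omega), right w h1 (by omega), hsub c hc w h1 h2, hsub d hd w h1 h2]
    ring
  · obtain ⟨e1, he1⟩ := hc.top
    obtain ⟨e2, he2⟩ := hd.top
    refine ⟨e1 + e2, fun w h1 h2 => ?_⟩
    rw [key, left w (by omega) (by omega), right w (by omega) (by omega)]
    rw [NC.sub_apply, NC.smul_apply, NC.sub_apply, NC.smul_apply, he1 w h1 h2, he2 w h1 h2,
      hc.nil, hd.nil]
    ring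

theorem good_of_mem (c : NC (ZMod p)) (hc : c ∈ QQ p) : Good c := by
  induction hc using Submonoid.closure_induction with
  | mem x hx => obtain ⟨v, rfl⟩ := hx; exact good_expo v
  | one => exact good_one
  | mul x y _ _ hx hy => exact good_mul x y hx hy

theorem D_Yw (c : NC (ZMod p)) (a : ℕ) : D c (Yw a) = (a + 1 : ZMod p) * c (Yw (a + 1)) := by
  induction a generalizing c with
  | zero => simp [Yw, D_nil]
  | succ a ih =>
    have : Yw (a + 1) = true :: Yw a := rfl
    rw [this, D_cons, ih (der true c), der_apply]
    have e1 : Yw (a + 1 + 1) = true :: true :: Yw a := rfl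
    rw [e1, this]
    push_cast; ring

theorem D_YXY (c : NC (ZMod p)) (a b : ℕ) : D c (Yw a ++ false :: Yw b)
    = (a + 1 : ZMod p) * c (Yw (a + 1) ++ false :: Yw b)
      + (b + 1 : ZMod p) * c (Yw a ++ false :: Yw (b + 1)) := by
  induction a generalizing c with
  | zero =>
    have e0 : Yw 0 = [] := rfl
    have e1 : Yw (0 + 1) = [true] := rfl
    rw [e0, e1, List.nil_append, List.nil_append, D_cons, D_Yw]
    simp
  | succ a ih =>
    have e1 : ∀ m, Yw (m + 1) = true :: Yw m := fun m => rfl
    rw [e1 (a + 1), e1 a, List.cons_append, D_cons, ih (der true c)]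
    simp only [der_apply, List.cons_append, e1]
    push_cast; ring

theorem good_Yw (c : NC (ZMod p)) (hc : Good c) (j : ℕ) (hj : j < p) :
    c (Yw j) = c [true] ^ j * ((j.factorial : ZMod p))⁻¹ := by
  induction j with
  | zero => simp [Yw, hc.nil]
  | succ j ih =>
    have h1 := hc.rel (Yw j) (by simp [Yw, List.count_replicate]) (by simpa [Yw] using hj)
    rw [D_Yw, ih (by omega)] at h1
    have h2 := nat_ne_zero (p := p) (n := j + 1) (by omega) hj
    have h3 := fact_ne_zero (p := p) (n := j) (by omega)
    rw [Nat.factorial_succ]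
    push_cast at h2 ⊢
    field_simp
    field_simp at h1
    rw [pow_succ]
    linear_combination h1

end Pool.Agent.W370.Hughes
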