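import Mathlib

set_option autoImplicit false

/-! # From a function with constant line sums to a counterexample -/

namespace Pool.Agent.W370.Hughes

/-- The Hughes subgroup `H_p(G)`: the subgroup generated by all elements whose order is not `p`
(elements of infinite order have `orderOf = 0`, so they are among the generators). -/
def hughesSubgroup (G : Type*) [Group G] (p : ℕ) : Subgroup G :=
  Subgroup.closure {g : G | orderOf g ≠ p}

section
variable (p : ℕ) (Q : Type) [Group Q] (K : Subgroup Q)

/-- functions `Q → ℤ/p²` all of whose line sums in directions outside `K` vanish -/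
def MM : AddSubgroup (Q → ZMod (p ^ 2)) where
  carrier := {f | ∀ q, q ∉ K → ∀ c, ∑ j ∈ Finset.range p, f (q ^ j * c) = 0}
  zero_mem' := by intro q _ c; simp
  add_mem' := by
    intro f g hf hg q hq c
    simp only [Pi.add_apply, Finset.sum_add_distrib]
    rw [hf q hq c, hg q hq c, add_zero]
  neg_mem' := by
    intro f hf q hq c
    simp only [Pi.neg_apply, Finset.sum_neg_distrib]
    rw [hf q hq c, neg_zero]

instance : DistribMulAction Q (MM p Q K) where
  smul d f := ⟨fun c => f.1 (c * d), fun q hq c => by
    have := f.2 q hq (c * d)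
    simpa [mul_assoc] using this⟩
  one_smul f := by
    apply Subtype.ext; funext c
    show f.1 (c * 1) = f.1 c
    rw [mul_one]
  mul_smul a b f := by
    apply Subtype.ext; funext c
    show f.1 (c * (a * b)) = f.1 (c * a * b)
    rw [mul_assoc]
  smul_zero a := rfl
  smul_add a f g := rfl

theorem MM_smul (d : Q) (f : MM p Q K) (c : Q) : (d • f).1 c = f.1 (c * d) := rfl

instance : MulDistribMulAction Q (Multiplicative (MM p Q K)) where
  smul d f := Multiplicative.ofAdd (d • Multiplicative.toAdd f)
  one_smul f := congrArg Multiplicative.ofAdd (one_smul Q (Multiplicative.toAdd f))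
  mul_smul a b f := congrArg Multiplicative.ofAdd (mul_smul a b (Multiplicative.toAdd f))
  smul_one _ := rfl
  smul_mul _ _ _ := rfl

/-- the semidirect product -/
abbrev GG : Type := Multiplicative (MM p Q K) ⋊[MulDistribMulAction.toMulAut Q (Multiplicative (MM p Q K))] Q

theorem GG_pow (g : GG p Q K) (n : ℕ) : (g ^ n).right = g.right ^ n ∧
    ∀ c, (Multiplicative.toAdd (g ^ n).left).1 c
      = ∑ j ∈ Finset.range n, (Multiplicative.toAdd g.left).1 (c * g.right ^ j) := by
  induction n with
  | zero =>
    refine ⟨?_, fun c => ?_⟩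
    · rw [pow_zero g, pow_zero]; rfl
    · rw [pow_zero g]; rfl
  | succ n ih =>
    rw [pow_succ g n]
    refine ⟨?_, fun c => ?_⟩
    · rw [SemidirectProduct.mul_right, ih.1]
      exact (pow_succ _ _).symm
    · rw [SemidirectProduct.mul_left, Finset.sum_range_succ]
      show (Multiplicative.toAdd (g ^ n).left).1 c
        + (Multiplicative.toAdd g.left).1 (c * (g ^ n).right) = _
      rw [ih.2 c, ih.1]

variable {p} [Fact p.Prime]

theorem hughes_of_data [K.Normal] (hQ : ∀ q, q ∉ K → q ^ p = 1) (hK : K.index = p ^ 2)
    (F : Q → ZMod p) (hF : ∀ q, q ∉ K → ∀ c, ∑ j ∈ Finset.range p, F (q ^ j * c) = -1) :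
    hughesSubgroup (GG p Q K) p ≠ ⊥ ∧ hughesSubgroup (GG p Q K) p ≠ ⊤ ∧
      p ^ 2 ∣ (hughesSubgroup (GG p Q K) p).index := by
  have hp : p.Prime := Fact.out
  have hle : hughesSubgroup (GG p Q K) p ≤ K.comap SemidirectProduct.rightHom := by
    rw [hughesSubgroup, Subgroup.closure_le]
    intro g hg
    by_contra hgK
    have hgK' : g.right ∉ K := hgK
    apply hg
    have h1 : g ^ p = 1 := by
      obtain ⟨h2, h3⟩ := GG_pow p Q K g p
      apply SemidirectProduct.ext
      · apply Multiplicative.toAdd.injective
        apply Subtype.ext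
        funext c
        rw [h3 c]
        show _ = (0 : ZMod (p ^ 2))
        have h4 : c * g.right * c⁻¹ ∉ K := by
          intro h5
          apply hgK'
          have := (inferInstance : K.Normal).conj_mem _ h5 c⁻¹
          simpa [mul_assoc] using this
        have h6 := (Multiplicative.toAdd g.left).2 _ h4 c
        rw [← h6]
        refine Finset.sum_congr rfl (fun j _ => ?_)
        rw [conj_pow]
        group
      · rw [h2, hQ _ hgK']; rfl
    refine orderOf_eq_prime h1 ?_
    intro h2
    apply hgK'
    rw [h2]
    exact K.one_mem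
  have hidx : (K.comap (SemidirectProduct.rightHom :
      GG p Q K →* Q)).index = p ^ 2 := by
    rw [Subgroup.index_comap_of_surjective _ SemidirectProduct.rightHom_surjective, hK]
  refine ⟨?_, ?_, ?_⟩
  · -- a nontrivial element whose order is not `p`
    have hmem : (fun c => 1 + (p : ZMod (p ^ 2)) * ((F c).val : ZMod (p ^ 2))) ∈ MM p Q K := by
      intro q hq c
      have h1 := hF q hq c
      rw [Finset.sum_add_distrib, ← Finset.mul_sum]
      have h2 : ((1 + ∑ j ∈ Finset.range p, (F (q ^ j * c)).val : ℕ) : ZMod p) = 0 := by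
        push_cast
        have : NeZero p := ⟨hp.ne_zero⟩
        simp only [ZMod.natCast_val, ZMod.cast_id', id_eq]
        rw [h1]; ring
      rw [ZMod.natCast_eq_zero_iff] at h2
      obtain ⟨m, hm⟩ := h2
      have h3 : ((p * (1 + ∑ j ∈ Finset.range p, (F (q ^ j * c)).val) : ℕ) : ZMod (p ^ 2)) = 0 := by
        rw [hm, ZMod.natCast_eq_zero_iff]
        exact ⟨m, by ring⟩
      push_cast at h3
      rw [Finset.sum_const, Finset.card_range, nsmul_eq_mul, mul_one]
      linear_combination h3
    set f : MM p Q K := ⟨_, hmem⟩ with hf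
    set g : GG p Q K := SemidirectProduct.inl (Multiplicative.ofAdd f) with hg
    have hpow : g ^ p ≠ 1 := by
      intro h
      have h1 := (GG_pow p Q K g p).2 1
      rw [h] at h1
      have h2 : ∀ j, (Multiplicative.toAdd g.left).1 (1 * g.right ^ j) = f.1 1 := by
        intro j
        show f.1 (1 * (1 : Q) ^ j) = f.1 1
        rw [one_pow, mul_one]
      simp only [h2] at h1
      have h3 : (0 : ZMod (p ^ 2)) = ∑ j ∈ Finset.range p, f.1 1 := h1
      rw [Finset.sum_const, Finset.card_range, nsmul_eq_mul] at h3
      have h4 : f.1 1 = 1 + (p : ZMod (p ^ 2)) * ((F 1).val : ZMod (p ^ 2)) := rfl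
      rw [h4] at h3
      have h5 : ((p + p ^ 2 * (F 1).val : ℕ) : ZMod (p ^ 2)) = 0 := by
        push_cast
        linear_combination -h3
      rw [ZMod.natCast_eq_zero_iff] at h5
      have h6 : p ^ 2 ∣ p := by
        have := (Nat.dvd_add_left (Dvd.intro (F 1).val rfl)).1 h5
        exact this
      have h7 := Nat.le_of_dvd hp.pos h6
      have h8 := hp.two_le
      nlinarith
    have hgH : g ∈ hughesSubgroup (GG p Q K) p := by
      apply Subgroup.subset_closure
      intro h
      apply hpow
      have := pow_orderOf_eq_one g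
      rwa [h] at this
    intro h
    rw [h, Subgroup.mem_bot] at hgH
    apply hpow
    rw [hgH, one_pow]
  · intro h
    rw [h, top_le_iff] at hle
    rw [hle, Subgroup.index_top] at hidx
    have := hp.two_le
    nlinarith
  · have := Subgroup.index_dvd_of_le hle
    rwa [hidx] at this

end

end Pool.Agent.W370.Hughes
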