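import Pool.Agent.W370.Hughes.LineTwo
import Pool.Agent.W370.Hughes.Red

set_option autoImplicit false
set_option linter.unusedSectionVars false

/-! # The group `Q` and the final theorem -/

namespace Pool.Agent.W370.Hughes

open NC Tr Po

variable (p : ℕ) [Fact p.Prime]

/-- two elements are identified when they have the same linear part and the two functionals
cannot distinguish them -/
def con : Con (QQ p) where
  r c d := (∀ x, c.1 [x] = d.1 [x]) ∧ (∀ u v : NC (ZMod p), pair T4 (u * c.1 * v) = pair T4 (u * d.1 * v))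
    ∧ (6 < p → ∀ u v : NC (ZMod p), pair T6 (u * c.1 * v) = pair T6 (u * d.1 * v))
  iseqv :=
    { refl := fun c => ⟨fun _ => rfl, fun _ _ => rfl, fun _ _ _ => rfl⟩
      symm := fun h => ⟨fun x => (h.1 x).symm, fun u v => (h.2.1 u v).symm,
        fun hp u v => (h.2.2 hp u v).symm⟩
      trans := fun h k => ⟨fun x => (h.1 x).trans (k.1 x), fun u v => (h.2.1 u v).trans (k.2.1 u v),
        fun hp u v => (h.2.2 hp u v).trans (k.2.2 hp u v)⟩ }
  mul' := by
    intro a b c d h k
    refine ⟨fun x => ?_, fun u v => ?_, fun hp u v => ?_⟩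
    · show (a.1 * c.1) [x] = (b.1 * d.1) [x]
      rw [mul_single _ _ (good_of_mem _ a.2).nil (good_of_mem _ c.2).nil,
        mul_single _ _ (good_of_mem _ b.2).nil (good_of_mem _ d.2).nil, h.1 x, k.1 x]
    · show pair T4 (u * (a.1 * c.1) * v) = pair T4 (u * (b.1 * d.1) * v)
      have e1 : u * (a.1 * c.1) * v = u * a.1 * (c.1 * v) := by simp only [mul_assoc]
      have e2 : u * b.1 * (c.1 * v) = (u * b.1) * c.1 * v := by simp only [mul_assoc]
      have e3 : (u * b.1) * d.1 * v = u * (b.1 * d.1) * v := by simp only [mul_assoc]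
      rw [e1, h.2.1, e2, k.2.1, e3]
    · show pair T6 (u * (a.1 * c.1) * v) = pair T6 (u * (b.1 * d.1) * v)
      have e1 : u * (a.1 * c.1) * v = u * a.1 * (c.1 * v) := by simp only [mul_assoc]
      have e2 : u * b.1 * (c.1 * v) = (u * b.1) * c.1 * v := by simp only [mul_assoc]
      have e3 : (u * b.1) * d.1 * v = u * (b.1 * d.1) * v := by simp only [mul_assoc]
      rw [e1, h.2.2 hp, e2, k.2.2 hp, e3]

/-- the quotient monoid (a finite `p`-group) -/
abbrev QB : Type := (con p).Quotient

variable {p}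

instance : Nontrivial (NC (ZMod p)) := ⟨0, 1, fun h => by
  have := congrFun h []
  exact zero_ne_one this⟩

instance : CharP (NC (ZMod p)) p :=
  charP_of_injective_algebraMap (algebraMap (ZMod p) (NC (ZMod p))).injective p

theorem pow_p_sub (c : NC (ZMod p)) (k : ℕ) : c ^ p ^ k = (c - 1) ^ p ^ k + 1 := by
  have h := add_pow_char_pow_of_commute (p := p) (n := k) (Commute.one_right (c - 1))
  rw [sub_add_cancel, one_pow] at h
  exact h

theorem pow_len (m y : NC (ZMod p)) (hm : m [] = 0) (K : ℕ) (w : List Bool) (h : w.length < K) :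
    (m ^ K * y) w = 0 := by
  induction K generalizing w with
  | zero => omega
  | succ K ih =>
    rw [pow_succ', mul_assoc]
    refine mul_eq_zero_of w _ _ (fun u v huv => ?_)
    have hl : u.length + v.length = w.length := by rw [← List.length_append, huv]
    by_cases hu : u = []
    · left; rw [hu]; exact hm
    · right
      have := List.length_pos_of_ne_nil hu
      exact ih v (by omega)

theorem pair_len (T : Tr) (n : ℕ) (hT : sup T n n = true) (m u v : NC (ZMod p)) (hm : m [] = 0) (K : ℕ)
    (hK : 2 * n < K) : pair T (u * m ^ K * v) = 0 := by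
  rw [mul_assoc]
  refine pair_eq_zero T n n hT _ (fun w h1 h2 => mul_eq_zero_of w _ _ (fun a b hab => Or.inr ?_))
  have hl : a.length + b.length = w.length := by rw [← List.length_append, hab]
  have := List.count_true_add_count_false w
  exact pow_len m v hm K b (by omega)

theorem con_pow_sq (hp : 3 < p) (c : QQ p) : con p (c ^ p ^ 2) 1 := by
  have hp2 : 4 ≤ p := hp
  have hg := (good_of_mem _ c.2).nil
  have h0 : (c.1 - 1) [] = 0 := by rw [NC.sub_apply, hg, one_nil, sub_self]
  have hp5 : 5 ≤ p := by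
    rcases Nat.lt_or_ge p 5 with h | h
    · have h4 : p = 4 := by omega
      exact absurd (h4 ▸ (Fact.out : p.Prime)) (by norm_num)
    · exact h
  have hsq : 12 < p ^ 2 := by nlinarith
  refine ⟨fun x => ?_, fun u v => ?_, fun _ u v => ?_⟩
  · show (c.1 ^ p ^ 2) [x] = (1 : NC (ZMod p)) [x]
    rw [(pow_single c.1 hg x (p ^ 2)).2, one_cons]
    simp
  · show pair T4 (u * c.1 ^ p ^ 2 * v) = pair T4 (u * 1 * v)
    rw [pow_p_sub, mul_add, add_mul, pair_add,
      pair_len T4 4 T4_sup (c.1 - 1) u v h0 _ (by omega), zero_add]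
  · show pair T6 (u * c.1 ^ p ^ 2 * v) = pair T6 (u * 1 * v)
    rw [pow_p_sub, mul_add, add_mul, pair_add,
      pair_len T6 6 T6_sup (c.1 - 1) u v h0 _ (by omega), zero_add]

theorem pair_p (T : Tr) (n : ℕ) (hT : sup T n n = true) (hn : n < p)
    (hTs : ∀ θ : NC (ZMod p) →* NC (ZMod p), Sym θ → ∀ c, pair T (θ c) = pair T c)
    (c u v : NC (ZMod p)) (hc : c ∈ QQ p) (h : ¬ (c [false] = 0 ∧ c [true] = 0)) :
    pair T (u * c ^ p * v) = pair T (u * 1 * v) := by
  obtain ⟨θ, h1, h2, h3⟩ := sym_exists c h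
  have e : c ^ p = (c - 1) ^ p + 1 := by
    have := pow_p_sub c 1
    rwa [pow_one] at this
  rw [e, mul_add, add_mul, pair_add, ← hTs θ h1, map_mul, map_mul, map_pow, h1.sub, mul_assoc,
    high_zero n hn T hT (θ c) (θ u) (θ v) (good_of_mem _ (h1.mem c hc)) h3 p hn, zero_add]

theorem con_pow_p (hp : 3 < p) (c : QQ p) (h : ¬ (c.1 [false] = 0 ∧ c.1 [true] = 0)) :
    con p (c ^ p) 1 := by
  have hp5 : 5 ≤ p := by
    rcases Nat.lt_or_ge p 5 with h | h
    · have h4 : p = 4 := by omega
      exact absurd (h4 ▸ (Fact.out : p.Prime)) (by norm_num)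
    · exact h
  have hg := (good_of_mem _ c.2).nil
  refine ⟨fun x => ?_, fun u v => ?_, fun h6 u v => ?_⟩
  · show (c.1 ^ p) [x] = (1 : NC (ZMod p)) [x]
    rw [(pow_single c.1 hg x p).2, one_cons]
    simp
  · exact pair_p T4 4 T4_sup (by omega) (fun θ hθ => hθ.p4) c.1 u v c.2 h
  · exact pair_p T6 6 T6_sup h6 (fun θ hθ => hθ.p6) c.1 u v c.2 h

/-- the group structure -/
@[reducible] def grp (hp : 3 < p) : Group (QB p) :=
  { (inferInstance : Monoid (QB p)) with
    inv := fun x => x ^ (p ^ 2 - 1)
    inv_mul_cancel := by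
      intro x
      have hp0 : 0 < p ^ 2 := by positivity
      show x ^ (p ^ 2 - 1) * x = 1
      rw [← pow_succ, Nat.sub_add_cancel hp0]
      induction x using Con.induction_on with
      | H c =>
        have e : (c : QB p) ^ p ^ 2 = ((c ^ p ^ 2 : QQ p) : QB p) := (map_pow (con p).mk' c _).symm
        rw [e, ← Con.coe_one, Con.eq]
        exact con_pow_sq hp c }

/-- the two linear coordinates -/
def pi (p : ℕ) [Fact p.Prime] : QB p →* Multiplicative (ZMod p × ZMod p) :=
  (con p).lift
    { toFun := fun c => Multiplicative.ofAdd (c.1 [false], c.1 [true])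
      map_one' := rfl
      map_mul' := fun c d => by
        have hc := (good_of_mem _ c.2).nil
        have hd := (good_of_mem _ d.2).nil
        have e : ∀ x, (c * d).1 [x] = c.1 [x] + d.1 [x] := fun x => mul_single _ _ hc hd x
        rw [← ofAdd_add, e, e]
        rfl }
    (fun c d h => by
      show Multiplicative.ofAdd (c.1 [false], c.1 [true]) = Multiplicative.ofAdd (d.1 [false], d.1 [true])
      rw [h.1, h.1])

theorem pi_coe (c : QQ p) : pi p (c : QB p) = Multiplicative.ofAdd (c.1 [false], c.1 [true]) := rfl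

theorem pi_surj : Function.Surjective (pi p) := by
  intro y
  obtain ⟨a, b⟩ := (Multiplicative.toAdd y)
  refine ⟨((⟨expo p (fun x => if x then (Multiplicative.toAdd y).2 else (Multiplicative.toAdd y).1),
    Submonoid.subset_closure ⟨_, rfl⟩⟩ : QQ p) : QB p), ?_⟩
  rw [pi_coe]
  simp only [expo_single]
  rfl

/-- the function on the quotient -/
def FQ (hp : 3 < p) : QB p → ZMod p := fun x => Con.liftOn x (fun c => FF c.1) (by
  intro c d h
  have h4 : pair T4 c.1 = pair T4 d.1 := by simpa using h.2.1 1 1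
  have h6 : pair T6 c.1 ^ eb p = pair T6 d.1 ^ eb p := by
    rcases Nat.eq_zero_or_pos (eb p) with he | he
    · rw [he, pow_zero, pow_zero]
    · have hp7 : 6 < p := by
        have := ea_eb hp
        omega
      have : pair T6 c.1 = pair T6 d.1 := by simpa using h.2.2 hp7 1 1
      rw [this]
  simp only [FF, ind]
  rw [h4, h6, h.1, h.1])

theorem FQ_coe (hp : 3 < p) (c : QQ p) : FQ hp (c : QB p) = FF c.1 := rfl

theorem coe_pow (c : QQ p) (n : ℕ) : ((c ^ n : QQ p) : QB p) = (c : QB p) ^ n :=
  map_pow (con p).mk' c n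

/-- **The Hughes conjecture fails for every prime `p > 3`.** -/
theorem main (hp : 3 < p) : ∃ (G : Type) (_ : Group G),
    hughesSubgroup G p ≠ ⊥ ∧ hughesSubgroup G p ≠ ⊤ ∧ p ^ 2 ∣ (hughesSubgroup G p).index := by
  let _ := grp (p := p) hp
  set K : Subgroup (QB p) := (pi p).ker with hKdef
  have hmem : ∀ c : QQ p, (c : QB p) ∈ K ↔ (c.1 [false] = 0 ∧ c.1 [true] = 0) := by
    intro c
    rw [hKdef, MonoidHom.mem_ker, pi_coe]
    constructor
    · intro h
      have h1 : (c.1 [false], c.1 [true]) = (0, 0) := h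
      exact ⟨congrArg Prod.fst h1, congrArg Prod.snd h1⟩
    · rintro ⟨h1, h2⟩
      rw [h1, h2]; rfl
  have hidx : K.index = p ^ 2 := by
    rw [hKdef, Subgroup.index_ker, MonoidHom.range_eq_top.2 pi_surj]
    rw [Subgroup.card_top]
    show Nat.card (ZMod p × ZMod p) = _
    rw [Nat.card_prod, Nat.card_zmod, sq]
  have hQ : ∀ q : QB p, q ∉ K → q ^ p = 1 := by
    intro q hq
    induction q using Con.induction_on with
    | H c =>
      rw [hmem] at hq
      have := (Con.eq (con p)).2 (con_pow_p hp c hq)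
      rw [coe_pow] at this
      exact this
  have hF : ∀ q : QB p, q ∉ K → ∀ c, ∑ j ∈ Finset.range p, FQ hp (q ^ j * c) = -1 := by
    intro q hq c
    induction q using Con.induction_on with
    | H q =>
      induction c using Con.induction_on with
      | H c =>
        rw [hmem] at hq
        rw [← line hp q.1 c.1 q.2 c.2 hq]
        refine Finset.sum_congr rfl (fun j _ => ?_)
        have : (q : QB p) ^ j * (c : QB p) = ((q ^ j * c : QQ p) : QB p) := by
          rw [Con.coe_mul, coe_pow]
        rw [this, FQ_coe]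
        rfl
  exact ⟨GG p (QB p) K, inferInstance, hughes_of_data (QB p) K hQ hidx (FQ hp) hF⟩

end Pool.Agent.W370.Hughes
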