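import Pool.Agent.W370.Hughes.Run

set_option autoImplicit false
set_option linter.unusedSectionVars false

/-! # Computable polynomials (reflection) for the evaluation `Tr.evV` -/

namespace Pool.Agent.W370.Hughes

open NC

namespace Po

abbrev Mono := List ℕ
abbrev Poly := List (Mono × ℤ)

def ins (v : ℕ) : Mono → Mono
  | [] => [v]
  | u :: m => if v ≤ u then v :: u :: m else u :: ins v m

def addTerm (m : Mono) (c : ℤ) : Poly → Poly
  | [] => [(m, c)]
  | (m', c') :: P => if m' = m then (m', c' + c) :: P else (m', c') :: addTerm m c P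

def addP : Poly → Poly → Poly
  | [], Q => Q
  | (m, c) :: P, Q => addP P (addTerm m c Q)

def mulV (c : ℤ) (v : ℕ) : Poly → Poly
  | [] => []
  | (m, d) :: P => (ins v m, c * d) :: mulV c v P

def mulLin : List (ℤ × ℕ) → Poly → Poly
  | [], _ => []
  | (c, v) :: t, P => addP (mulV c v P) (mulLin t P)

def allZero : Poly → Bool
  | [] => true
  | (_, c) :: P => (c == 0) && allZero P

variable {k : Type*} [CommRing k] (ρ : ℕ → k)

def evalM : Mono → k
  | [] => 1
  | v :: m => ρ v * evalM m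

def evalP : Poly → k
  | [] => 0
  | (m, c) :: P => (c : k) * evalM ρ m + evalP P

def evalLin : List (ℤ × ℕ) → k
  | [] => 0
  | (c, v) :: t => (c : k) * ρ v + evalLin t

theorem evalM_ins (v : ℕ) (m : Mono) : evalM ρ (ins v m) = ρ v * evalM ρ m := by
  induction m with
  | nil => rfl
  | cons u m ih =>
    rw [ins]
    split_ifs
    · rfl
    · simp only [evalM, ih]; ring

theorem evalP_addTerm (m : Mono) (c : ℤ) (P : Poly) :
    evalP ρ (addTerm m c P) = (c : k) * evalM ρ m + evalP ρ P := by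
  induction P with
  | nil => rfl
  | cons t P ih =>
    obtain ⟨m', c'⟩ := t
    rw [addTerm]
    split_ifs with h
    · subst h; simp only [evalP]; push_cast; ring
    · simp only [evalP, ih]; ring

theorem evalP_addP (P Q : Poly) : evalP ρ (addP P Q) = evalP ρ P + evalP ρ Q := by
  induction P generalizing Q with
  | nil => simp [addP, evalP]
  | cons t P ih =>
    obtain ⟨m, c⟩ := t
    rw [addP, ih, evalP_addTerm, evalP]; ring

theorem evalP_mulV (c : ℤ) (v : ℕ) (P : Poly) :
    evalP ρ (mulV c v P) = (c : k) * ρ v * evalP ρ P := by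
  induction P with
  | nil => simp [mulV, evalP]
  | cons t P ih =>
    obtain ⟨m, d⟩ := t
    rw [mulV, evalP, evalP, ih, evalM_ins]; push_cast; ring

theorem evalP_mulLin (l : List (ℤ × ℕ)) (P : Poly) :
    evalP ρ (mulLin l P) = evalLin ρ l * evalP ρ P := by
  induction l with
  | nil => simp [mulLin, evalP, evalLin]
  | cons t l ih =>
    obtain ⟨c, v⟩ := t
    rw [mulLin, evalP_addP, evalP_mulV, ih, evalLin]; ring

theorem evalP_allZero (P : Poly) (h : allZero P = true) : evalP ρ P = 0 := by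
  induction P with
  | nil => rfl
  | cons t P ih =>
    obtain ⟨m, c⟩ := t
    simp only [allZero, Bool.and_eq_true, beq_iff_eq] at h
    simp [evalP, h.1, ih h.2]

/-- variable code of `β_j` -/
def bcode (j : ℕ) : ℕ := 200 + j

open Tr

def pB (qc : ℕ → ℕ → List (ℤ × ℕ)) (V : Tr → Poly) : Tr → ℕ → ℕ → Poly
  | Z, _, _ => []
  | N z l r, a, b => addP (mulLin (qc a b) (V (N z l r))) (pB qc V r a (b + 1))

def pA (qc : ℕ → ℕ → List (ℤ × ℕ)) (V : Tr → Poly) : Tr → ℕ → Poly
  | Z, _ => []
  | N _ l r, a => addP (pB qc V l a 0) (pA qc V r (a + 1))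

def p0 : Tr → ℕ → Poly
  | Z, _ => []
  | N z _ r, j => if z = 0 then p0 r (j + 1) else addTerm [bcode j] z (p0 r (j + 1))

def pV (qc : ℕ → ℕ → List (ℤ × ℕ)) : ℕ → Tr → Poly
  | 0, T => p0 T 0
  | n + 1, T => pA qc (pV qc n) T 0

theorem eval_pB (qc : ℕ → ℕ → List (ℤ × ℕ)) (V : Tr → Poly) (V' : Tr → k)
    (hV : ∀ T, evalP ρ (V T) = V' T) (T : Tr) (a b : ℕ) :
    evalP ρ (pB qc V T a b) = evB (fun a b => evalLin ρ (qc a b)) V' T a b := by
  induction T generalizing a b with
  | Z => rfl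
  | N z l r ihl ihr => rw [pB, evalP_addP, evalP_mulLin, hV, ihr, evB]

theorem eval_pA (qc : ℕ → ℕ → List (ℤ × ℕ)) (V : Tr → Poly) (V' : Tr → k)
    (hV : ∀ T, evalP ρ (V T) = V' T) (T : Tr) (a : ℕ) :
    evalP ρ (pA qc V T a) = evA (fun a b => evalLin ρ (qc a b)) V' T a := by
  induction T generalizing a with
  | Z => rfl
  | N z l r ihl ihr => rw [pA, evalP_addP, eval_pB ρ qc V V' hV, ihr, evA]

theorem eval_p0 (T : Tr) (j : ℕ) : evalP ρ (p0 T j) = ev0 (fun j => ρ (bcode j)) T j := by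
  induction T generalizing j with
  | Z => rfl
  | N z l r ihl ihr =>
    rw [p0, ev0]
    split_ifs with h
    · rw [ihr, h]; simp
    · rw [evalP_addTerm, ihr]; simp [evalM]

theorem eval_pV (qc : ℕ → ℕ → List (ℤ × ℕ)) (n : ℕ) (T : Tr) :
    evalP ρ (pV qc n T) = evV (fun a b => evalLin ρ (qc a b)) (fun j => ρ (bcode j)) n T := by
  induction n generalizing T with
  | zero => rw [pV, evV, eval_p0]
  | succ n ih => rw [pV, evV, eval_pA ρ qc (pV qc n) _ ih]

/-- the coefficients of the one-`X` part: `(-1)^b C(a+b,b) α_{a+b} + [a+b=n] s_b e`, where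
`s_b = (1 - (-1)^b C(n,b)) / (n+1)`; the variable `e` has code `100` -/
def qcN (n a b : ℕ) : List (ℤ × ℕ) :=
  if a + b = n then [((-1) ^ b * (n.choose b : ℤ), n), ((1 - (-1) ^ b * (n.choose b : ℤ)) / (n + 1 : ℤ), 100)]
  else [((-1) ^ b * ((a + b).choose b : ℤ), a + b)]

theorem check4 : allZero (addTerm [0, 0, 0, 0, bcode 4] (-2) (pV (qcN 4) 4 T4)) = true := by
  decide +kernel

theorem check6 : allZero (addTerm [0, 0, 0, 0, 0, 0, bcode 6] (-600) (pV (qcN 6) 6 T6)) = true := by
  decide +kernel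

end Po

end Pool.Agent.W370.Hughes
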