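import Pool.Agent.W370.Hughes.Good
import Pool.Agent.W370.Hughes.Poly

set_option autoImplicit false
set_option linter.unusedSectionVars false

/-! # The key evaluation -/

namespace Pool.Agent.W370.Hughes

open NC Tr Po

variable {p : ℕ} [Fact p.Prime]

def rho (q : NC (ZMod p)) (w e : ZMod p) : ℕ → ZMod p := fun i =>
  if i = 100 then e else if 200 ≤ i then w ^ (i - 200) * (((i - 200).factorial : ZMod p))⁻¹
  else q (Yw i ++ [false])

theorem rho_b (q : NC (ZMod p)) (w e : ZMod p) (j : ℕ) :
    rho q w e (bcode j) = w ^ j * ((j.factorial : ZMod p))⁻¹ := by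
  unfold rho bcode
  have h1 : ¬ (200 + j = 100) := by omega
  have h2 : 200 ≤ 200 + j := by omega
  simp only [h1, h2, if_false, if_true, Nat.add_sub_cancel_left]

theorem low (q : NC (ZMod p)) (hq : Good q) (h0 : q [true] = 0) (b a : ℕ) (h : a + b + 1 < p) :
    q (Yw a ++ false :: Yw b) = (-1) ^ b * ((a + b).choose b : ZMod p) * q (Yw (a + b) ++ [false]) := by
  induction b generalizing a with
  | zero => simp [Yw]
  | succ b ih =>
    have h1 := hq.rel (Yw a ++ false :: Yw b)
      (by simp [Yw, List.count_replicate]) (by simp [Yw]; omega)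
    rw [D_YXY, h0, zero_mul, ih (a + 1) (by omega)] at h1
    have h2 := nat_ne_zero (p := p) (n := b + 1) (by omega) (by omega)
    have h3 : ((a + b + 1).choose (b + 1) : ZMod p) * (b + 1) = ((a + b + 1).choose b : ZMod p) * (a + 1) := by
      have := Nat.choose_succ_right_eq (a + b + 1) b
      have h4 : a + b + 1 - b = a + 1 := by omega
      rw [h4] at this
      have := congrArg (Nat.cast : ℕ → ZMod p) this
      push_cast at this
      exact this
    have h5 : a + 1 + b = a + b + 1 := by omega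
    have h6 : a + (b + 1) = a + b + 1 := by omega
    rw [h5] at h1
    rw [h6]
    push_cast at h2
    apply mul_left_cancel₀ h2
    rw [pow_succ]
    linear_combination h1 + (-1) ^ b * q (Yw (a + b + 1) ++ [false]) * h3

def sN (n b : ℕ) : ℤ := (1 - (-1) ^ b * (n.choose b : ℤ)) / (n + 1 : ℤ)

theorem high (n : ℕ) (hs0 : sN n 0 = 0)
    (hs : ∀ b < n, (b + 1 : ℤ) * sN n (b + 1) + (n - b : ℤ) * sN n b = 1)
    (q : NC (ZMod p)) (h0 : q [true] = 0) (hn : n + 1 = p) (e : ZMod p)
    (he : ∀ w : List Bool, w.count false = 1 → w.length + 1 = p → D q w = q [true] * q w + e)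
    (b a : ℕ) (h : a + b = n) :
    q (Yw a ++ false :: Yw b) = (-1) ^ b * (n.choose b : ZMod p) * q (Yw n ++ [false])
      + (sN n b : ZMod p) * e := by
  induction b generalizing a with
  | zero => simp [Yw, hs0] at h ⊢; rw [h]
  | succ b ih =>
    have h1 := he (Yw a ++ false :: Yw b)
      (by simp [Yw, List.count_replicate]) (by simp [Yw]; omega)
    rw [D_YXY, h0, zero_mul, zero_add, ih (a + 1) (by omega)] at h1
    have h2 := nat_ne_zero (p := p) (n := b + 1) (by omega) (by omega)
    have h3 : (n.choose (b + 1) : ZMod p) * (b + 1) = (n.choose b : ZMod p) * (a + 1) := by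
      have := Nat.choose_succ_right_eq n b
      have h4 : n - b = a + 1 := by omega
      rw [h4] at this
      have := congrArg (Nat.cast : ℕ → ZMod p) this
      push_cast at this
      exact this
    have h4 : ((b : ZMod p) + 1) * (sN n (b + 1) : ZMod p) + (a + 1) * (sN n b : ZMod p) = 1 := by
      have := hs b (by omega)
      have h5 : (n - b : ℤ) = a + 1 := by omega
      rw [h5] at this
      have := congrArg (fun z : ℤ => (z : ZMod p)) this
      push_cast at this
      exact this
    push_cast at h2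
    apply mul_left_cancel₀ h2
    rw [pow_succ]
    linear_combination h1 + (-1) ^ b * q (Yw n ++ [false]) * h3 - e * h4

theorem oneX (n : ℕ) (hn : n < 100) (hs0 : sN n 0 = 0)
    (hs : ∀ b < n, (b + 1 : ℤ) * sN n (b + 1) + (n - b : ℤ) * sN n b = 1) (hnp : n < p)
    (q : NC (ZMod p)) (hq : Good q) (h0 : q [true] = 0) :
    ∃ e : ZMod p, ∀ w : ZMod p, ∀ a b, a + b ≤ n →
      q (Yw a ++ false :: Yw b) = evalLin (rho q w e) (qcN n a b) := by
  have hr : ∀ (w e : ZMod p) (i : ℕ), i ≤ n → rho q w e i = q (Yw i ++ [false]) := by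
    intro w e i hi
    rw [rho, if_neg (by omega), if_neg (by omega)]
  have hr100 : ∀ (w e : ZMod p), rho q w e 100 = e := by
    intro w e
    rw [rho, if_pos rfl]
  rcases Nat.lt_or_ge (n + 1) p with h | h
  · refine ⟨0, fun w a b hab => ?_⟩
    rw [low q hq h0 b a (by omega), qcN]
    split_ifs with h1
    · rw [← h1]
      simp only [evalLin]
      rw [hr100, hr w 0 (a + b) hab]
      push_cast; ring
    · simp only [evalLin]
      rw [hr w 0 (a + b) hab]
      push_cast; ring
  · have hp : n + 1 = p := by omega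
    obtain ⟨e, he⟩ := hq.top
    refine ⟨e, fun w a b hab => ?_⟩
    rw [qcN]
    split_ifs with h1
    · rw [high n hs0 hs q h0 hp e he b a h1]
      simp only [evalLin]
      rw [hr100, hr w e n le_rfl, sN]
      push_cast; ring
    · rw [low q hq h0 b a (by omega)]
      simp only [evalLin]
      rw [hr w e (a + b) hab]
      push_cast; ring

theorem sub_one_Yw (n : ℕ) (hnp : n < p) (q : NC (ZMod p)) (hq : Good q) (h0 : q [true] = 0)
    (a : ℕ) (ha : a ≤ n) : (q - 1) (Yw a) = 0 := by
  rw [NC.sub_apply]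
  cases a with
  | zero =>
    show q [] - (1 : NC (ZMod p)) [] = 0
    rw [hq.nil, one_nil, sub_self]
  | succ a =>
    have e1 : Yw (a + 1) = true :: Yw a := rfl
    rw [good_Yw q hq (a + 1) (by omega), h0, e1, one_cons]
    simp

theorem key (n : ℕ) (hn : n < 100) (hs0 : sN n 0 = 0)
    (hs : ∀ b < n, (b + 1 : ℤ) * sN n (b + 1) + (n - b : ℤ) * sN n b = 1) (hnp : n < p)
    (T : Tr) (hT : sup T n n = true) (C : ℤ) (m : Mono)
    (hC : allZero (addTerm m (-C) (pV (qcN n) n T)) = true)
    (q y : NC (ZMod p)) (hq : Good q) (hy : Good y) (h0 : q [true] = 0) :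
    ∃ e : ZMod p, pair T ((q - 1) ^ n * y) = C * evalM (rho q (y [true]) e) m := by
  obtain ⟨e, he⟩ := oneX n hn hs0 hs hnp q hq h0
  refine ⟨e, ?_⟩
  have h1 := evalP_allZero (rho q (y [true]) e) _ hC
  rw [evalP_addTerm, eval_pV] at h1
  have h2 := pair_pow n (q - 1) y (fun a b => evalLin (rho q (y [true]) e) (qcN n a b))
    (fun j => rho q (y [true]) e (bcode j))
    (sub_one_Yw n hnp q hq h0) (fun a b hab => ?_) (fun j hj => ?_) n T n hT le_rfl
  · rw [h2]
    push_cast at h1
    linear_combination h1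
  · rw [← he (y [true]) a b hab, NC.sub_apply]
    have : (1 : NC (ZMod p)) (Yw a ++ false :: Yw b) = 0 := by
      cases a with
      | zero => rfl
      | succ a => rfl
    rw [this, sub_zero]
  · rw [good_Yw y hy j (by omega)]
    exact (rho_b q (y [true]) e j).symm

theorem key4 (hp : 4 < p) (q y : NC (ZMod p)) (hq : Good q) (hy : Good y) (h1 : q [false] = 1)
    (h0 : q [true] = 0) :
    pair T4 ((q - 1) ^ 4 * y) = 2 * (y [true] ^ 4 * ((Nat.factorial 4 : ℕ) : ZMod p)⁻¹) := by
  obtain ⟨e, he⟩ := key 4 (by norm_num) (by decide) (by decide) hp T4 T4_sup 2 _ check4 q y hq hy h0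
  rw [he]
  simp [evalM, rho, bcode, Yw, h1]

theorem key6 (hp : 6 < p) (q y : NC (ZMod p)) (hq : Good q) (hy : Good y) (h1 : q [false] = 1)
    (h0 : q [true] = 0) :
    pair T6 ((q - 1) ^ 6 * y) = 600 * (y [true] ^ 6 * ((Nat.factorial 6 : ℕ) : ZMod p)⁻¹) := by
  obtain ⟨e, he⟩ := key 6 (by norm_num) (by decide) (by decide) hp T6 T6_sup 600 _ check6 q y hq hy h0
  rw [he]
  simp [evalM, rho, bcode, Yw, h1]

end Pool.Agent.W370.Hughes
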