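import Pool.Agent.W370.Hughes.Key

set_option autoImplicit false
set_option linter.unusedSectionVars false

/-! # Line sums -/

namespace Pool.Agent.W370.Hughes

open NC Tr Po Polynomial

variable {p : ℕ} [Fact p.Prime]

theorem sum_zmod (f : ZMod p → ZMod p) : ∑ t ∈ Finset.range p, f (t : ZMod p) = ∑ x : ZMod p, f x := by
  have hp : 0 < p := (Fact.out : p.Prime).pos
  have : NeZero p := ⟨hp.ne'⟩
  refine Finset.sum_nbij' (fun t => (t : ZMod p)) ZMod.val ?_ ?_ ?_ ?_ ?_
  · intro t _; exact Finset.mem_univ _
  · intro x _; exact Finset.mem_range.2 (ZMod.val_lt x)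
  · intro t ht; exact ZMod.val_cast_of_lt (Finset.mem_range.1 ht)
  · intro x _; exact ZMod.natCast_zmod_val x
  · intro t _; rfl

theorem sum_pow_zmod (i : ℕ) (h : i ≤ p - 1) :
    ∑ x : ZMod p, x ^ i = if i = p - 1 then -1 else 0 := by
  have hp : 1 < p := (Fact.out : p.Prime).one_lt
  split_ifs with hi
  · subst hi
    have : ∀ x : ZMod p, x ^ (p - 1) = 1 - (if x = 0 then 1 else 0) := by
      intro x
      split_ifs with hx
      · rw [hx, zero_pow (by omega)]; simp
      · rw [ZMod.pow_card_sub_one_eq_one hx]; simp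
    simp only [this, Finset.sum_sub_distrib]
    simp
  · have := FiniteField.sum_pow_lt_card_sub_one (K := ZMod p) i (by rw [ZMod.card]; omega)
    exact this

theorem sum_eval (P : (ZMod p)[X]) (h : P.natDegree ≤ p - 1) :
    ∑ t ∈ Finset.range p, P.eval (t : ZMod p) = - P.coeff (p - 1) := by
  rw [sum_zmod (fun x => P.eval x)]
  have hP : ∀ x : ZMod p, P.eval x = ∑ i ∈ Finset.range (p - 1 + 1), P.coeff i * x ^ i := fun x =>
    eval_eq_sum_range' (by omega) x
  simp only [hP]
  rw [Finset.sum_comm]
  simp only [← Finset.mul_sum]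
  rw [Finset.sum_congr rfl (fun i hi => by
    rw [sum_pow_zmod i (by have := Finset.mem_range.1 hi; omega)])]
  simp

/-- the function `t ↦ pair T (q^t y)` is polynomial -/
theorem poly_of (n : ℕ) (T : Tr) (q y : NC (ZMod p))
    (hz : ∀ j, n < j → pair T ((q - 1) ^ j * y) = 0) :
    ∃ P : (ZMod p)[X], P.natDegree ≤ n ∧
      P.coeff n = pair T ((q - 1) ^ n * y) * ((n.factorial : ZMod p))⁻¹ ∧
      (n < p → ∀ t : ℕ, pair T (q ^ t * y) = P.eval (t : ZMod p)) := by
  refine ⟨∑ j ∈ Finset.range (n + 1), C (pair T ((q - 1) ^ j * y) * ((j.factorial : ZMod p))⁻¹)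
    * descPochhammer (ZMod p) j, ?_, ?_, ?_⟩
  · apply natDegree_sum_le_of_forall_le
    intro j hj
    refine (natDegree_C_mul_le _ _).trans ?_
    rw [descPochhammer_natDegree]
    have := Finset.mem_range.1 hj
    omega
  · rw [finsetSum_coeff, Finset.sum_eq_single n]
    · rw [coeff_C_mul]
      have : (descPochhammer (ZMod p) n).coeff n = 1 := by
        have h := (monic_descPochhammer (ZMod p) n).coeff_natDegree
        rwa [descPochhammer_natDegree] at h
      rw [this, mul_one]
    · intro j hj hjn
      rw [coeff_C_mul, coeff_eq_zero_of_natDegree_lt, mul_zero]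
      rw [descPochhammer_natDegree]
      have := Finset.mem_range.1 hj
      omega
    · intro h
      exact absurd (Finset.mem_range.2 (Nat.lt_succ_self n)) h
  · intro hnp t
    have hc : Commute (q - 1) (1 : NC (ZMod p)) := Commute.one_right _
    have h1 : q ^ t = ∑ m ∈ Finset.range (t + 1), (q - 1) ^ m * ((t.choose m : ℕ) : NC (ZMod p)) := by
      have := hc.add_pow t
      rw [sub_add_cancel] at this
      rw [this]
      simp
    have h2 : pair T (q ^ t * y) = ∑ m ∈ Finset.range (t + 1),
        (t.choose m : ZMod p) * pair T ((q - 1) ^ m * y) := by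
      rw [h1, Finset.sum_mul, pair_sum]
      refine Finset.sum_congr rfl (fun m _ => ?_)
      rw [← pair_smul]
      congr 1
      have : ((t.choose m : ℕ) : NC (ZMod p)) = algebraMap (ZMod p) (NC (ZMod p)) (t.choose m : ZMod p) := by
        rw [map_natCast]
      rw [this, Algebra.smul_def, ← Algebra.commutes, mul_assoc]
    rw [h2, eval_finsetSum]
    have h3 : ∀ j ∈ Finset.range (n + 1), eval (t : ZMod p)
        (C (pair T ((q - 1) ^ j * y) * ((j.factorial : ZMod p))⁻¹) * descPochhammer (ZMod p) j)
        = (t.choose j : ZMod p) * pair T ((q - 1) ^ j * y) := by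
      intro j hj
      have hj' := Finset.mem_range.1 hj
      have hf := fact_ne_zero (p := p) (n := j) (by omega)
      rw [eval_mul, eval_C, descPochhammer_eval_eq_descFactorial, Nat.descFactorial_eq_factorial_mul_choose]
      push_cast
      field_simp
    rw [Finset.sum_congr rfl h3]
    -- both sums agree with the sum over a large range
    have h4 : ∀ N, t ≤ N → ∑ m ∈ Finset.range (t + 1), (t.choose m : ZMod p) * pair T ((q - 1) ^ m * y)
        = ∑ m ∈ Finset.range (N + 1), (t.choose m : ZMod p) * pair T ((q - 1) ^ m * y) := by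
      intro N hN
      refine Finset.sum_subset (Finset.range_mono (by omega)) (fun m _ hm => ?_)
      have : t < m := by
        by_contra hc'
        exact hm (Finset.mem_range.2 (by omega))
      rw [Nat.choose_eq_zero_of_lt this]; simp
    have h5 : ∀ N, n ≤ N → ∑ m ∈ Finset.range (n + 1), (t.choose m : ZMod p) * pair T ((q - 1) ^ m * y)
        = ∑ m ∈ Finset.range (N + 1), (t.choose m : ZMod p) * pair T ((q - 1) ^ m * y) := by
      intro N hN
      refine Finset.sum_subset (Finset.range_mono (by omega)) (fun m _ hm => ?_)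
      have : n < m := by
        by_contra hc'
        exact hm (Finset.mem_range.2 (by omega))
      rw [hz m this]; simp
    rw [h4 (max t n) (le_max_left _ _), h5 (max t n) (le_max_right _ _)]

theorem high_zero (n : ℕ) (hnp : n < p) (T : Tr) (hT : sup T n n = true) (q x y : NC (ZMod p))
    (hq : Good q) (h0 : q [true] = 0) (K : ℕ) (hK : n < K) : pair T (x * ((q - 1) ^ K * y)) = 0 := by
  refine pair_eq_zero T n n hT _ (fun w h1 h2 => mul_eq_zero_of w _ _ (fun u v huv => Or.inr ?_))
  have c1 : u.count false + v.count false = n := by rw [← List.count_append, huv, h1]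
  have c2 : u.count true + v.count true = n := by rw [← List.count_append, huv, h2]
  exact pow_order n (q - 1) y (sub_one_Yw n hnp q hq h0) K v (by omega) (by omega)

theorem high_zero' (n : ℕ) (hnp : n < p) (T : Tr) (hT : sup T n n = true) (q y : NC (ZMod p))
    (hq : Good q) (h0 : q [true] = 0) (K : ℕ) (hK : n < K) : pair T ((q - 1) ^ K * y) = 0 := by
  have := high_zero n hnp T hT q 1 y hq h0 K hK
  rwa [one_mul] at this

theorem pow_single (q : NC (ZMod p)) (hq : q [] = 1) (x : Bool) (t : ℕ) :
    (q ^ t) [] = 1 ∧ (q ^ t) [x] = t * q [x] := by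
  induction t with
  | zero => simp
  | succ t ih =>
    rw [pow_succ]
    refine ⟨by rw [mul_nil, ih.1, hq, one_mul], ?_⟩
    rw [mul_single _ _ ih.1 hq, ih.2]; push_cast; ring

end Pool.Agent.W370.Hughes
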