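import Pool.Agent.W370.Hughes.Line

set_option autoImplicit false
set_option linter.unusedSectionVars false

/-! # The function with all line sums equal to `-1` -/

namespace Pool.Agent.W370.Hughes

open NC Tr Po Polynomial

/-- exponents: `4 * ea p + 6 * eb p = p - 1` -/
def eb (p : ℕ) : ℕ := if (p - 1) % 4 = 0 then 0 else 1
def ea (p : ℕ) : ℕ := (p - 1 - 6 * eb p) / 4

variable {p : ℕ} [Fact p.Prime]

theorem ea_eb (hp : 3 < p) : 4 * ea p + 6 * eb p = p - 1 := by
  have h : p % 2 = 1 := by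
    rcases (Fact.out : p.Prime).eq_two_or_odd with h | h
    · omega
    · exact h
  unfold ea eb
  split_ifs with h1
  · omega
  · omega

/-- the normalising constant -/
def kap (p : ℕ) [Fact p.Prime] : ZMod p :=
  ((2 * ((Nat.factorial 4 : ℕ) : ZMod p)⁻¹ * ((Nat.factorial 4 : ℕ) : ZMod p)⁻¹) ^ ea p
    * (600 * ((Nat.factorial 6 : ℕ) : ZMod p)⁻¹ * ((Nat.factorial 6 : ℕ) : ZMod p)⁻¹) ^ eb p)⁻¹

def ind (c : NC (ZMod p)) : ZMod p := if c [false] = 0 ∧ c [true] = 0 then 1 else 0

def FF (c : NC (ZMod p)) : ZMod p := kap p * (pair T4 c ^ ea p * pair T6 c ^ eb p) - ind c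

theorem line_norm (hp : 3 < p) (q y : NC (ZMod p)) (hq : Good q) (hy : Good y)
    (h1 : q [false] = 1) (h0 : q [true] = 0) :
    ∑ t ∈ Finset.range p, FF (q ^ t * y) = -1 := by
  have hp5 : 5 ≤ p := by
    rcases Nat.lt_or_ge p 5 with h | h
    · have h4 : p = 4 := by omega
      exact absurd (h4 ▸ (Fact.out : p.Prime)) (by norm_num)
    · exact h
  obtain ⟨P, hP1, hP2, hP3⟩ := poly_of 4 T4 q y
    (fun j hj => high_zero' 4 (by omega) T4 T4_sup q y hq h0 j hj)
  -- a polynomial for the power of the second functional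
  obtain ⟨R, hR1, hR2, hR3⟩ : ∃ R : (ZMod p)[X], R.natDegree ≤ 6 * eb p ∧
      R.coeff (6 * eb p) = (600 * (y [true] ^ 6 * ((Nat.factorial 6 : ℕ) : ZMod p)⁻¹)
        * ((Nat.factorial 6 : ℕ) : ZMod p)⁻¹) ^ eb p ∧
      (∀ t : ℕ, pair T6 (q ^ t * y) ^ eb p = R.eval (t : ZMod p)) := by
    rcases Nat.eq_zero_or_pos (eb p) with he | he
    · rw [he]
      exact ⟨1, by simp, by simp, by simp⟩
    · have he1 : eb p = 1 := by
        unfold eb at he ⊢
        split_ifs at he ⊢
        · omega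
        · rfl
      have hp7 : 6 < p := by
        have := ea_eb hp
        omega
      rw [he1]
      obtain ⟨R, hR1, hR2, hR3⟩ := poly_of 6 T6 q y
        (fun j hj => high_zero' 6 (by omega) T6 T6_sup q y hq h0 j hj)
      refine ⟨R, by simpa using hR1, ?_, ?_⟩
      · rw [mul_one, hR2, key6 hp7 q y hq hy h1 h0, pow_one]
      · intro t
        rw [pow_one]
        exact hR3 hp7 t
  have hP2' : P.coeff 4 = 2 * (y [true] ^ 4 * ((Nat.factorial 4 : ℕ) : ZMod p)⁻¹)
        * ((Nat.factorial 4 : ℕ) : ZMod p)⁻¹ := by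
    rw [hP2, key4 (by omega) q y hq hy h1 h0]
  have hdegPa : (P ^ ea p).natDegree ≤ 4 * ea p :=
    (natDegree_pow_le).trans (by nlinarith)
  have hcoPa : (P ^ ea p).coeff (4 * ea p) = P.coeff 4 ^ ea p := by
    have := coeff_pow_of_natDegree_le (m := ea p) hP1
    rwa [mul_comm] at this
  have hS : ∑ t ∈ Finset.range p, kap p * (pair T4 (q ^ t * y) ^ ea p * pair T6 (q ^ t * y) ^ eb p)
      = - (y [true]) ^ (p - 1) := by
    have e1 : ∀ t ∈ Finset.range p, kap p * (pair T4 (q ^ t * y) ^ ea p * pair T6 (q ^ t * y) ^ eb p)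
        = kap p * ((P ^ ea p * R).eval (t : ZMod p)) := by
      intro t _
      rw [eval_mul, eval_pow, hP3 (by omega) t, hR3 t]
    rw [Finset.sum_congr rfl e1, ← Finset.mul_sum, sum_eval]
    · rw [← ea_eb hp, coeff_mul_add_eq_of_natDegree_le hdegPa hR1, hcoPa, hR2, hP2']
      have e2 : (2 * (y [true] ^ 4 * ((Nat.factorial 4 : ℕ) : ZMod p)⁻¹)
            * ((Nat.factorial 4 : ℕ) : ZMod p)⁻¹) ^ ea p
          * (600 * (y [true] ^ 6 * ((Nat.factorial 6 : ℕ) : ZMod p)⁻¹)
            * ((Nat.factorial 6 : ℕ) : ZMod p)⁻¹) ^ eb p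
          = ((2 * ((Nat.factorial 4 : ℕ) : ZMod p)⁻¹ * ((Nat.factorial 4 : ℕ) : ZMod p)⁻¹) ^ ea p
            * (600 * ((Nat.factorial 6 : ℕ) : ZMod p)⁻¹ * ((Nat.factorial 6 : ℕ) : ZMod p)⁻¹) ^ eb p)
            * y [true] ^ (4 * ea p + 6 * eb p) := by
        rw [pow_add, pow_mul (y [true]) 4, pow_mul (y [true]) 6]
        simp only [mul_pow]
        ring
      rw [e2, kap]
      have hne : ((2 * ((Nat.factorial 4 : ℕ) : ZMod p)⁻¹ * ((Nat.factorial 4 : ℕ) : ZMod p)⁻¹) ^ ea p
            * (600 * ((Nat.factorial 6 : ℕ) : ZMod p)⁻¹ * ((Nat.factorial 6 : ℕ) : ZMod p)⁻¹) ^ eb p) ≠ 0 := by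
        apply mul_ne_zero
        · apply pow_ne_zero
          have h4 := fact_ne_zero (p := p) (n := 4) (by omega)
          have h2 : (2 : ZMod p) ≠ 0 := by
            have := nat_ne_zero (p := p) (n := 2) (by omega) (by omega)
            exact_mod_cast this
          exact mul_ne_zero (mul_ne_zero h2 (inv_ne_zero h4)) (inv_ne_zero h4)
        · rcases Nat.eq_zero_or_pos (eb p) with he | he
          · rw [he, pow_zero]; exact one_ne_zero
          · apply pow_ne_zero
            have hp7 : 6 < p := by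
              have := ea_eb hp
              omega
            have h6 := fact_ne_zero (p := p) (n := 6) (by omega)
            have h2 : (600 : ZMod p) ≠ 0 := by
              have h2 := nat_ne_zero (p := p) (n := 2) (by omega) (by omega)
              have h3 := nat_ne_zero (p := p) (n := 3) (by omega) (by omega)
              have h5 := nat_ne_zero (p := p) (n := 5) (by omega) (by omega)
              have : (600 : ZMod p) = (2 : ℕ) ^ 3 * (3 : ℕ) * (5 : ℕ) ^ 2 := by push_cast; norm_num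
              rw [this]
              exact mul_ne_zero (mul_ne_zero (pow_ne_zero _ h2) h3) (pow_ne_zero _ h5)
            exact mul_ne_zero (mul_ne_zero h2 (inv_ne_zero h6)) (inv_ne_zero h6)
      rw [mul_neg, ← mul_assoc, inv_mul_cancel₀ hne, one_mul]
    · refine natDegree_mul_le.trans ?_
      have := ea_eb hp
      omega
  have hI : ∑ t ∈ Finset.range p, ind (q ^ t * y) = 1 - (y [true]) ^ (p - 1) := by
    have e1 : ∀ t ∈ Finset.range p, ind (q ^ t * y)
        = (fun x : ZMod p => if x = - y [false] ∧ y [true] = 0 then (1 : ZMod p) else 0) (t : ZMod p) := by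
      intro t _
      have h2 := pow_single q hq.nil false t
      have h3 := pow_single q hq.nil true t
      simp only [ind]
      rw [mul_single _ _ h2.1 hy.nil, mul_single _ _ h2.1 hy.nil, h2.2, h3.2, h1, h0]
      congr 1
      simp only [mul_one, mul_zero, zero_add, eq_iff_iff, and_congr_left_iff]
      intro _
      exact ⟨fun h => by linear_combination h, fun h => by linear_combination h⟩
    rw [Finset.sum_congr rfl e1, sum_zmod (fun x : ZMod p => if x = - y [false] ∧ y [true] = 0 then (1 : ZMod p) else 0)]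
    by_cases hw : y [true] = 0
    · simp only [hw, and_true]
      rw [zero_pow (by omega)]
      simp
    · simp only [hw, and_false, if_false]
      rw [ZMod.pow_card_sub_one_eq_one hw]
      simp
  simp only [FF, Finset.sum_sub_distrib]
  rw [hS, hI]
  ring

/-- symmetries -/
structure Sym (θ : NC (ZMod p) →* NC (ZMod p)) : Prop where
  mem : ∀ c, c ∈ QQ p → θ c ∈ QQ p
  p4 : ∀ c, pair T4 (θ c) = pair T4 c
  p6 : ∀ c, pair T6 (θ c) = pair T6 c
  ker : ∀ c, ((θ c) [false] = 0 ∧ (θ c) [true] = 0) ↔ (c [false] = 0 ∧ c [true] = 0)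
  sub : ∀ c, θ (c - 1) = θ c - 1

theorem sb_sub_one (s : Bool) (c : NC (ZMod p)) : sb s (c - 1) = sb s c - 1 := by
  have h := sb_add s c ((-1 : ZMod p) • (1 : NC (ZMod p)))
  rw [sb_smul, sb_one] at h
  have e : c - 1 = c + (-1 : ZMod p) • (1 : NC (ZMod p)) := by rw [neg_smul, one_smul, sub_eq_add_neg]
  rw [e, h, neg_smul, one_smul, sub_eq_add_neg]

theorem sym_id : Sym (MonoidHom.id (NC (ZMod p))) :=
  ⟨fun _ h => h, fun _ => rfl, fun _ => rfl, fun _ => Iff.rfl, fun _ => rfl⟩

theorem sb_single (s x : Bool) (c : NC (ZMod p)) :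
    sb s c [x] = c [s] + (if x = s then 0 else c [x]) := by
  rw [sb_cons, sb_nil, NC.add_apply, der_apply]
  split_ifs <;> rfl

theorem sym_sb (s : Bool) : Sym (sbHom s : NC (ZMod p) →* NC (ZMod p)) where
  mem := fun c hc => sb_mem s c hc
  p4 := fun c => pair_invariant T4 s (T4_tr s) c
  p6 := fun c => pair_invariant T6 s (T6_tr s) c
  ker := fun c => by
    show (sb s c [false] = 0 ∧ sb s c [true] = 0) ↔ _
    rw [sb_single, sb_single]
    cases s
    · simp only [Bool.true_eq_false, if_true, if_false, add_zero]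
      constructor
      · rintro ⟨h1, h2⟩; rw [h1, zero_add] at h2; exact ⟨h1, h2⟩
      · rintro ⟨h1, h2⟩; rw [h1, h2, add_zero]; exact ⟨rfl, rfl⟩
    · simp only [Bool.false_eq_true, if_true, if_false, add_zero]
      constructor
      · rintro ⟨h1, h2⟩; rw [h2, zero_add] at h1; exact ⟨h1, h2⟩
      · rintro ⟨h1, h2⟩; rw [h1, h2, add_zero]; exact ⟨rfl, rfl⟩
  sub := fun c => sb_sub_one s c

theorem sym_comp (θ η : NC (ZMod p) →* NC (ZMod p)) (h1 : Sym θ) (h2 : Sym η) : Sym (θ.comp η) where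
  mem := fun c hc => h1.mem _ (h2.mem c hc)
  p4 := fun c => by rw [MonoidHom.comp_apply, h1.p4, h2.p4]
  p6 := fun c => by rw [MonoidHom.comp_apply, h1.p6, h2.p6]
  ker := fun c => by
    simp only [MonoidHom.comp_apply]
    rw [h1.ker, h2.ker]
  sub := fun c => by rw [MonoidHom.comp_apply, h2.sub, h1.sub, MonoidHom.comp_apply]

theorem sym_iter (s : Bool) (m : ℕ) : ∃ θ : NC (ZMod p) →* NC (ZMod p), Sym θ ∧
    ∀ c, θ c [s] = c [s] ∧ θ c [!s] = c [!s] + m * c [s] := by
  induction m with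
  | zero => exact ⟨MonoidHom.id _, sym_id, fun c => by simp⟩
  | succ m ih =>
    obtain ⟨θ, h1, h2⟩ := ih
    refine ⟨(sbHom s).comp θ, sym_comp _ _ (sym_sb s) h1, fun c => ?_⟩
    have e : ∀ x, ((sbHom s).comp θ) c [x] = sb s (θ c) [x] := fun _ => rfl
    rw [e, e, sb_single, sb_single, (h2 c).1, (h2 c).2]
    cases s
    · simp; ring
    · simp; ring

theorem sym_exists (c : NC (ZMod p)) (hc : ¬ (c [false] = 0 ∧ c [true] = 0)) :
    ∃ θ : NC (ZMod p) →* NC (ZMod p), Sym θ ∧ θ c [false] = 1 ∧ θ c [true] = 0 := by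
  have hp : 0 < p := (Fact.out : p.Prime).pos
  have : NeZero p := ⟨hp.ne'⟩
  have main : ∀ c : NC (ZMod p), c [true] ≠ 0 →
      ∃ θ : NC (ZMod p) →* NC (ZMod p), Sym θ ∧ θ c [false] = 1 ∧ θ c [true] = 0 := by
    intro c hc
    obtain ⟨θ, h1, h2⟩ := sym_iter (p := p) true (((1 - c [false]) / c [true] : ZMod p)).val
    obtain ⟨η, h3, h4⟩ := sym_iter (p := p) false ((- c [true] : ZMod p)).val
    refine ⟨η.comp θ, sym_comp _ _ h3 h1, ?_, ?_⟩
    · rw [MonoidHom.comp_apply, (h4 _).1]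
      have := (h2 c).2
      simp only [Bool.not_true] at this
      rw [this, ZMod.natCast_zmod_val]
      field_simp
      ring
    · have h5 := (h4 (θ c)).2
      have h6 := (h2 c).2
      simp only [Bool.not_true, Bool.not_false] at h5 h6
      rw [MonoidHom.comp_apply, h5, h6, (h2 c).1, ZMod.natCast_zmod_val, ZMod.natCast_zmod_val]
      field_simp
      ring
  by_cases h : c [true] = 0
  · have hf : c [false] ≠ 0 := fun h' => hc ⟨h', h⟩
    have h1 : (sbHom false : NC (ZMod p) →* NC (ZMod p)) c [true] ≠ 0 := by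
      show sb false c [true] ≠ 0
      rw [sb_single]; simp [h, hf]
    obtain ⟨θ, h2, h3⟩ := main _ h1
    exact ⟨θ.comp (sbHom false), sym_comp _ _ h2 (sym_sb false), h3⟩
  · exact main c h

theorem FF_sym (θ : NC (ZMod p) →* NC (ZMod p)) (h : Sym θ) (c : NC (ZMod p)) : FF (θ c) = FF c := by
  simp only [FF, ind, h.p4, h.p6, h.ker]

theorem line (hp : 3 < p) (q y : NC (ZMod p)) (hq : q ∈ QQ p) (hy : y ∈ QQ p)
    (h : ¬ (q [false] = 0 ∧ q [true] = 0)) :
    ∑ t ∈ Finset.range p, FF (q ^ t * y) = -1 := by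
  obtain ⟨θ, h1, h2, h3⟩ := sym_exists q h
  have := line_norm hp (θ q) (θ y) (good_of_mem _ (h1.mem q hq)) (good_of_mem _ (h1.mem y hy)) h2 h3
  rw [← this]
  refine Finset.sum_congr rfl (fun t _ => ?_)
  rw [← map_pow, ← map_mul, FF_sym θ h1]

end Pool.Agent.W370.Hughes
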