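import Mathlib

set_option autoImplicit false
set_option linter.unusedSectionVars false

/-! # Noncommutative power series in two letters -/

namespace Pool.Agent.W370.Hughes

/-- Noncommutative formal power series in two letters `false = X`, `true = Y` with coefficients
in `k`: functions on words. -/
def NC (k : Type*) : Type _ := List Bool → k

namespace NC

variable {k : Type*} [CommRing k]

instance : AddCommGroup (NC k) := inferInstanceAs (AddCommGroup (List Bool → k))
instance : Module k (NC k) := inferInstanceAs (Module k (List Bool → k))

@[ext] theorem ext' {f g : NC k} (h : ∀ w, f w = g w) : f = g := funext h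

@[simp] theorem add_apply (f g : NC k) (w : List Bool) : (f + g) w = f w + g w := rfl
@[simp] theorem sub_apply (f g : NC k) (w : List Bool) : (f - g) w = f w - g w := rfl
@[simp] theorem neg_apply (f : NC k) (w : List Bool) : (-f) w = - f w := rfl
@[simp] theorem zero_apply (w : List Bool) : (0 : NC k) w = 0 := rfl
@[simp] theorem smul_apply (a : k) (f : NC k) (w : List Bool) : (a • f) w = a * f w := rfl

/-- left derivative: `der x f w = f (x w)` -/
def der (x : Bool) (f : NC k) : NC k := fun w => f (x :: w)

@[simp] theorem der_apply (x : Bool) (f : NC k) (w : List Bool) : der x f w = f (x :: w) := rfl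
@[simp] theorem der_add (x : Bool) (f g : NC k) : der x (f + g) = der x f + der x g := rfl
@[simp] theorem der_sub (x : Bool) (f g : NC k) : der x (f - g) = der x f - der x g := rfl
@[simp] theorem der_smul (x : Bool) (a : k) (f : NC k) : der x (a • f) = a • der x f := rfl
@[simp] theorem der_zero (x : Bool) : der x (0 : NC k) = 0 := rfl

/-- convolution product -/
def conv (g : NC k) : List Bool → NC k → k
  | [], f => f [] * g []
  | (x :: w), f => f [] * g (x :: w) + conv g w (der x f)

instance : Mul (NC k) := ⟨fun f g w => conv g w f⟩

theorem mul_nil (f g : NC k) : (f * g) [] = f [] * g [] := rfl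
theorem mul_cons (f g : NC k) (x : Bool) (w : List Bool) :
    (f * g) (x :: w) = f [] * g (x :: w) + (der x f * g) w := rfl

theorem der_mul (x : Bool) (f g : NC k) : der x (f * g) = f [] • der x g + der x f * g := by
  ext w
  rw [der_apply, mul_cons]
  rfl

instance : One (NC k) := ⟨fun w => if w = [] then 1 else 0⟩

@[simp] theorem one_nil : (1 : NC k) [] = 1 := rfl
@[simp] theorem one_cons (x : Bool) (w : List Bool) : (1 : NC k) (x :: w) = 0 := rfl
@[simp] theorem der_one (x : Bool) : der x (1 : NC k) = 0 := rfl

theorem add_mul' (f f' g : NC k) : (f + f') * g = f * g + f' * g := by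
  ext w
  induction w generalizing f f' with
  | nil => simp only [mul_nil, add_apply]; ring
  | cons x w ih =>
    simp only [mul_cons, add_apply, der_add]
    rw [ih (der x f) (der x f'), add_apply]; ring

theorem mul_add' (f g g' : NC k) : f * (g + g') = f * g + f * g' := by
  ext w
  induction w generalizing f with
  | nil => simp only [mul_nil, add_apply]; ring
  | cons x w ih =>
    simp only [mul_cons, add_apply]
    rw [ih (der x f), add_apply]; ring

theorem smul_mul' (a : k) (f g : NC k) : (a • f) * g = a • (f * g) := by
  ext w
  induction w generalizing f with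
  | nil => simp only [mul_nil, smul_apply]; ring
  | cons x w ih =>
    simp only [mul_cons, smul_apply, der_smul]
    rw [ih (der x f), smul_apply]; ring

theorem mul_smul' (a : k) (f g : NC k) : f * (a • g) = a • (f * g) := by
  ext w
  induction w generalizing f with
  | nil => simp only [mul_nil, smul_apply]; ring
  | cons x w ih =>
    simp only [mul_cons, smul_apply]
    rw [ih (der x f), smul_apply]; ring

theorem zero_mul' (g : NC k) : 0 * g = 0 := by
  have := smul_mul' (0 : k) 0 g
  simpa using this

theorem mul_zero' (f : NC k) : f * 0 = 0 := by
  have := mul_smul' (0 : k) f 0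
  simpa using this

theorem mul_assoc' (f g h : NC k) : f * g * h = f * (g * h) := by
  ext w
  induction w generalizing f with
  | nil => simp only [mul_nil]; ring
  | cons x w ih =>
    rw [mul_cons, mul_cons, mul_cons, mul_nil, der_mul, add_mul', add_apply, smul_mul',
      smul_apply, ih (der x f)]
    ring

theorem one_mul' (f : NC k) : 1 * f = f := by
  ext w
  cases w with
  | nil => simp [mul_nil]
  | cons x w => rw [mul_cons, one_nil, der_one, zero_mul', one_mul, zero_apply, add_zero]

theorem mul_one' (f : NC k) : f * 1 = f := by
  ext w
  induction w generalizing f with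
  | nil => simp [mul_nil]
  | cons x w ih => rw [mul_cons, ih, one_cons, mul_zero, zero_add, der_apply]

instance : Ring (NC k) :=
  { (inferInstance : AddCommGroup (NC k)) with
    mul := (· * ·)
    one := 1
    left_distrib := mul_add'
    right_distrib := add_mul'
    zero_mul := zero_mul'
    mul_zero := mul_zero'
    mul_assoc := mul_assoc'
    one_mul := one_mul'
    mul_one := mul_one' }

instance : Algebra k (NC k) := Algebra.ofModule smul_mul' mul_smul'

/-- general vanishing criterion for a product -/
theorem mul_eq_zero_of (w : List Bool) (f g : NC k)
    (h : ∀ u v, u ++ v = w → f u = 0 ∨ g v = 0) : (f * g) w = 0 := by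
  induction w generalizing f with
  | nil =>
    rw [mul_nil]
    rcases h [] [] rfl with h | h <;> simp [h]
  | cons x w ih =>
    rw [mul_cons, ih (der x f) (fun u v huv => h (x :: u) v (by simp [huv])), add_zero]
    rcases h [] (x :: w) rfl with h | h <;> simp [h]

theorem mul_eq_left (w : List Bool) (f g : NC k)
    (h : ∀ u v, u ++ v = w → v ≠ [] → f u = 0) : (f * g) w = f w * g [] := by
  induction w generalizing f with
  | nil => rfl
  | cons x w ih =>
    rw [mul_cons, ih (der x f) (fun u v huv hv => h (x :: u) v (by simp [huv]) hv),
      h [] (x :: w) rfl (by simp), zero_mul, zero_add, der_apply]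

theorem mul_eq_right (w : List Bool) (f g : NC k)
    (h : ∀ u v, u ++ v = w → u ≠ [] → g v = 0) : (f * g) w = f [] * g w := by
  cases w with
  | nil => rfl
  | cons x w =>
    rw [mul_cons, mul_eq_zero_of w (der x f) g (fun u v huv => Or.inr (h (x :: u) v (by simp [huv]) (by simp))),
      add_zero]

end NC

end Pool.Agent.W370.Hughes
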