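import Pool.Agent.W370.Hughes.Tree

set_option autoImplicit false
set_option linter.unusedSectionVars false

/-! # Evaluating the functionals on `(q - 1)^n y` -/

namespace Pool.Agent.W370.Hughes

open NC

variable {k : Type*} [CommRing k]

namespace Tr

theorem sup_of_isZ (T : Tr) (h : isZ T = true) (i j : ℕ) : sup T i j = true := by
  induction T generalizing i j with
  | Z => rfl
  | N z l r ihl ihr =>
    simp only [isZ, Bool.and_eq_true, beq_iff_eq] at h
    obtain ⟨h0, h1, h2⟩ := h
    simp only [sup, Bool.and_eq_true, Bool.or_eq_true, beq_iff_eq]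
    refine ⟨Or.inl h0, ?_, ?_⟩
    · cases i with
      | zero => exact h1
      | succ i => exact ihl h1 i j
    · cases j with
      | zero => exact h2
      | succ j => exact ihr h2 i j

def evB (q : ℕ → ℕ → k) (V : Tr → k) : Tr → ℕ → ℕ → k
  | Z, _, _ => 0
  | N z l r, a, b => q a b * V (N z l r) + evB q V r a (b + 1)

def evA (q : ℕ → ℕ → k) (V : Tr → k) : Tr → ℕ → k
  | Z, _ => 0
  | N _ l r, a => evB q V l a 0 + evA q V r (a + 1)

def ev0 (β : ℕ → k) : Tr → ℕ → k
  | Z, _ => 0
  | N z _ r, j => (z : k) * β j + ev0 β r (j + 1)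

def evV (q : ℕ → ℕ → k) (β : ℕ → k) : ℕ → Tr → k
  | 0, T => ev0 β T 0
  | n + 1, T => evA q (evV q β n) T 0

/-- `Y^a` -/
def Yw (a : ℕ) : List Bool := List.replicate a true

def dY (a : ℕ) (f : NC k) : NC k := fun w => f (Yw a ++ w)
def dYXY (a b : ℕ) (f : NC k) : NC k := fun w => f (Yw a ++ false :: (Yw b ++ w))

theorem der_true_dY (a : ℕ) (f : NC k) : der true (dY a f) = dY (a + 1) f := by
  ext w; simp [dY, Yw, List.replicate_succ']
theorem der_false_dY (a : ℕ) (f : NC k) : der false (dY a f) = dYXY a 0 f := by
  ext w; simp [dY, dYXY, Yw]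
theorem der_true_dYXY (a b : ℕ) (f : NC k) : der true (dYXY a b f) = dYXY a (b + 1) f := by
  ext w; simp [dYXY, Yw, List.replicate_succ']

theorem pair_mul_N (v : ℤ) (l r : Tr) (f z : NC k) :
    pair (N v l r) (f * z) = f [] * pair (N v l r) z
      + (pair l (der false f * z) + pair r (der true f * z)) := by
  simp only [pair, der_mul, mul_nil, pair_add, pair_smul]
  ring

section
variable (n : ℕ) (m z : NC k) (K : ℕ) (q : ℕ → ℕ → k) (V : Tr → k)
  (hm : ∀ a ≤ n, m (Yw a) = 0)
  (hq : ∀ a b, a + b ≤ n → m (Yw a ++ false :: Yw b) = q a b)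
  (hz : ∀ w : List Bool, w.count true ≤ n → w.count false < K → z w = 0)
  (hV : ∀ (T : Tr) (j : ℕ), sup T K j = true → j ≤ n → pair T z = V T)

include hV in
theorem V_isZ (T : Tr) (h : isZ T = true) : V T = 0 := by
  rw [← hV T 0 (sup_of_isZ T h K 0) (Nat.zero_le _), pair_isZ T h]

include hV in
theorem evB_isZ (T : Tr) (h : isZ T = true) (a b : ℕ) : evB q V T a b = 0 := by
  induction T generalizing a b with
  | Z => rfl
  | N v l r ihl ihr =>
    have h' := h
    simp only [isZ, Bool.and_eq_true, beq_iff_eq] at h'
    simp only [evB]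
    rw [V_isZ n z K V hV _ h, ihr h'.2.2]
    ring

include hV in
theorem evA_isZ (T : Tr) (h : isZ T = true) (a : ℕ) : evA q V T a = 0 := by
  induction T generalizing a with
  | Z => rfl
  | N v l r ihl ihr =>
    simp only [isZ, Bool.and_eq_true, beq_iff_eq] at h
    simp only [evA]
    rw [evB_isZ n z K q V hV _ h.2.1, ihr h.2.2, add_zero]

include hq hz hV in
theorem pair_B (T : Tr) (a b j : ℕ) (hT : sup T K j = true) (hj : a + b + j ≤ n) :
    pair T (dYXY a b m * z) = evB q V T a b := by
  induction T generalizing a b j with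
  | Z => rfl
  | N v l r ihl ihr =>
    rw [pair_mul_N, hV _ j hT (by omega), evB]
    simp only [sup, Bool.and_eq_true, Bool.or_eq_true, beq_iff_eq] at hT
    obtain ⟨h0, h1, h2⟩ := hT
    have e1 : pair l (der false (dYXY a b m) * z) = 0 := by
      cases K with
      | zero => exact pair_isZ l h1 _
      | succ K =>
        refine pair_eq_zero l K j h1 _ (fun w hw1 hw2 => mul_eq_zero_of w _ _ ?_)
        intro u v huv
        right
        have c1 : u.count false + v.count false = K := by rw [← List.count_append, huv, hw1]
        have c2 : u.count true + v.count true = j := by rw [← List.count_append, huv, hw2]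
        exact hz v (by omega) (by omega)
    have e2 : pair r (der true (dYXY a b m) * z) = evB q V r a (b + 1) := by
      rw [der_true_dYXY]
      cases j with
      | zero => rw [pair_isZ r h2, evB_isZ n z K q V hV r h2]
      | succ j => exact ihr a (b + 1) j h2 (by omega)
    have e0 : dYXY a b m [] = q a b := by
      have := hq a b (by omega)
      simpa [dYXY] using this
    rw [e0, e1, e2, zero_add]

include hm hq hz hV in
theorem pair_A (T : Tr) (a j : ℕ) (hT : sup T (K + 1) j = true) (hj : a + j ≤ n) :
    pair T (dY a m * z) = evA q V T a := by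
  induction T generalizing a j with
  | Z => rfl
  | N v l r ihl ihr =>
    rw [pair_mul_N, evA]
    simp only [sup, Bool.and_eq_true, Bool.or_eq_true, beq_iff_eq] at hT
    obtain ⟨h0, h1, h2⟩ := hT
    have e0 : dY a m [] = 0 := by
      have := hm a (by omega)
      simpa [dY] using this
    rw [e0, zero_mul, zero_add, der_false_dY, der_true_dY,
      pair_B n m z K q V hq hz hV l a 0 j h1 (by omega)]
    congr 1
    cases j with
    | zero => rw [pair_isZ r h2, evA_isZ n z K q V hV r h2]
    | succ j => exact ihr (a + 1) j h2 (by omega)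

end

theorem pair_0 (β : ℕ → k) (y : NC k) (n : ℕ) (hy : ∀ j ≤ n, y (Yw j) = β j) (T : Tr) (a j : ℕ)
    (hj : a + j ≤ n) (hT : sup T 0 j = true) : pair T (dY a y) = ev0 β T a := by
  induction T generalizing a j with
  | Z => rfl
  | N v l r ihl ihr =>
    simp only [sup, Bool.and_eq_true, Bool.or_eq_true, beq_iff_eq] at hT
    obtain ⟨h0, h1, h2⟩ := hT
    rw [pair, ev0, pair_isZ l h1, zero_add, der_true_dY]
    have e0 : dY a y [] = β a := by
      have := hy a (by omega)
      simpa [dY] using this
    rw [e0]
    congr 1
    cases j with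
    | zero =>
      rw [pair_isZ r h2]
      symm
      clear ihr ihl
      generalize a + 1 = c
      induction r generalizing c with
      | Z => rfl
      | N z l r ihl ihr =>
        simp only [isZ, Bool.and_eq_true, beq_iff_eq] at h2
        rw [ev0, ihr h2.2.2, h2.1]; simp
    | succ j => exact ihr (a + 1) j (by omega) h2

theorem pow_order (n : ℕ) (m y : NC k) (hm : ∀ a ≤ n, m (Yw a) = 0) (K : ℕ) (w : List Bool)
    (h1 : w.count true ≤ n) (h2 : w.count false < K) : (m ^ K * y) w = 0 := by
  induction K generalizing w with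
  | zero => omega
  | succ K ih =>
    rw [pow_succ', mul_assoc]
    refine mul_eq_zero_of w _ _ (fun u v huv => ?_)
    have c1 : u.count false + v.count false = w.count false := by rw [← List.count_append, huv]
    have c2 : u.count true + v.count true = w.count true := by rw [← List.count_append, huv]
    by_cases hu : u.count false = 0
    · left
      have : u = Yw (u.count true) := by
        rw [Yw, List.eq_replicate_iff]
        refine ⟨?_, fun b hb => ?_⟩
        · have := List.count_true_add_count_false u
          omega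
        · cases b with
          | true => rfl
          | false => exact absurd (List.count_pos_iff.2 hb) (by omega)
      rw [this]
      exact hm _ (by omega)
    · right
      exact ih v (by omega) (by omega)

theorem pair_pow (n : ℕ) (m y : NC k) (q : ℕ → ℕ → k) (β : ℕ → k)
    (hm : ∀ a ≤ n, m (Yw a) = 0)
    (hq : ∀ a b, a + b ≤ n → m (Yw a ++ false :: Yw b) = q a b)
    (hy : ∀ j ≤ n, y (Yw j) = β j) (K : ℕ) (T : Tr) (j : ℕ) (hT : sup T K j = true) (hj : j ≤ n) :
    pair T (m ^ K * y) = evV q β K T := by
  induction K generalizing T j with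
  | zero =>
    rw [pow_zero, one_mul, evV]
    exact pair_0 β y n hy T 0 j (by omega) hT
  | succ K ih =>
    rw [pow_succ', mul_assoc, evV]
    have := pair_A n m (m ^ K * y) K q (evV q β K) hm hq
      (fun w h1 h2 => pow_order n m y hm K w h1 h2) (fun T j => ih T j) T 0 j hT (by omega)
    have h0 : dY 0 m = m := by ext w; rfl
    rwa [h0] at this

end Tr

end Pool.Agent.W370.Hughes
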