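import Pool.Agent.W370.Hughes.NC

set_option autoImplicit false
set_option linter.unusedSectionVars false

/-! # Substitutions, the derivation `∂/∂Y`, exponentials -/

namespace Pool.Agent.W370.Hughes

namespace NC

variable {k : Type*} [CommRing k]

/-- the substitution sending the letter `s` to `X + Y` and fixing the other letter -/
def sbw (s : Bool) : List Bool → NC k → k
  | [], f => f []
  | (x :: w), f => sbw s w (der s f + (if x = s then 0 else der x f))

def sb (s : Bool) (f : NC k) : NC k := fun w => sbw s w f

theorem sb_nil (s : Bool) (f : NC k) : sb s f [] = f [] := rfl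
theorem sb_cons (s x : Bool) (w : List Bool) (f : NC k) :
    sb s f (x :: w) = sb s (der s f + (if x = s then 0 else der x f)) w := rfl

theorem der_sb (s x : Bool) (f : NC k) :
    der x (sb s f) = sb s (der s f + (if x = s then 0 else der x f)) := rfl

theorem sb_add (s : Bool) (f g : NC k) : sb s (f + g) = sb s f + sb s g := by
  ext w
  induction w generalizing f g with
  | nil => rfl
  | cons x w ih =>
    rw [add_apply, sb_cons, sb_cons, sb_cons, ← add_apply, ← ih]
    have : der s (f + g) + (if x = s then 0 else der x (f + g))
        = der s f + (if x = s then 0 else der x f) + (der s g + (if x = s then 0 else der x g)) := by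
      split_ifs <;> simp only [der_add] <;> abel
    rw [this]

theorem sb_smul (s : Bool) (a : k) (f : NC k) : sb s (a • f) = a • sb s f := by
  ext w
  induction w generalizing f with
  | nil => rfl
  | cons x w ih =>
    rw [smul_apply, sb_cons, sb_cons, ← smul_apply, ← ih]
    congr 1
    split_ifs <;> simp only [der_smul, smul_add, smul_zero]

theorem sb_one (s : Bool) : sb s (1 : NC k) = 1 := by
  have h0 : ∀ w, sb s (0 : NC k) w = 0 := by
    intro w
    have := congrFun (sb_smul s (0 : k) (0 : NC k)) w
    rw [zero_smul] at this
    rw [this, zero_smul, zero_apply]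
  ext w
  cases w with
  | nil => rfl
  | cons x w =>
    rw [sb_cons]
    simp only [der_one, one_cons]
    split_ifs <;> simp [h0]

theorem sb_mul (s : Bool) (f g : NC k) : sb s (f * g) = sb s f * sb s g := by
  ext w
  induction w generalizing f with
  | nil => rfl
  | cons x w ih =>
    rw [mul_cons, sb_cons, der_sb, sb_cons, sb_nil, ← ih]
    have : der s (f * g) + (if x = s then 0 else der x (f * g))
        = f [] • (der s g + (if x = s then 0 else der x g))
          + (der s f + (if x = s then 0 else der x f)) * g := by
      split_ifs
      · rw [der_mul]; simp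
      · rw [der_mul, der_mul, add_mul, smul_add]; abel
    rw [this, sb_add, sb_smul, add_apply, smul_apply]

/-- substitution as a monoid homomorphism -/
def sbHom (s : Bool) : NC k →* NC k where
  toFun := sb s
  map_one' := sb_one s
  map_mul' := sb_mul s

/-- the derivation `∂/∂Y` (insert a `Y` in all ways) -/
def Dw : List Bool → NC k → k
  | [], f => f [true]
  | (x :: w), f => f (true :: x :: w) + Dw w (der x f)

def D (f : NC k) : NC k := fun w => Dw w f

theorem D_nil (f : NC k) : D f [] = f [true] := rfl
theorem D_cons (x : Bool) (w : List Bool) (f : NC k) :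
    D f (x :: w) = f (true :: x :: w) + D (der x f) w := rfl
theorem der_D (x : Bool) (f : NC k) : der x (D f) = der x (der true f) + D (der x f) := rfl

theorem D_add (f g : NC k) : D (f + g) = D f + D g := by
  ext w
  induction w generalizing f g with
  | nil => rfl
  | cons x w ih =>
    rw [add_apply, D_cons, D_cons, D_cons, der_add, ih, add_apply, add_apply]; ring

theorem D_smul (a : k) (f : NC k) : D (a • f) = a • D f := by
  ext w
  induction w generalizing f with
  | nil => rfl
  | cons x w ih =>
    rw [smul_apply, D_cons, D_cons, der_smul, ih, smul_apply, smul_apply]; ring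

theorem D_mul (f g : NC k) : D (f * g) = D f * g + f * D g := by
  ext w
  induction w generalizing f with
  | nil =>
    simp only [D_nil, add_apply, mul_nil, mul_cons, der_apply]
    ring
  | cons x w ih =>
    rw [D_cons, der_mul, D_add, D_smul, add_apply, ih, add_apply, smul_apply, add_apply,
      mul_cons, mul_cons, mul_cons, mul_cons, der_D, add_mul, add_apply, D_nil, D_cons]
    simp only [der_apply]
    ring

/-- the series `w ↦ (∏ v x) φ(|w|)` -/
def mon (v : Bool → k) (φ : ℕ → k) : NC k := fun w => (w.map v).prod * φ w.length

theorem mon_nil (v : Bool → k) (φ : ℕ → k) : mon v φ [] = φ 0 := by simp [mon]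
theorem der_mon (x : Bool) (v : Bool → k) (φ : ℕ → k) :
    der x (mon v φ) = v x • mon v (fun n => φ (n + 1)) := by
  ext w
  simp [mon, mul_assoc]

theorem sb_mon (s : Bool) (v : Bool → k) (φ : ℕ → k) :
    sb s (mon v φ) = mon (fun x => v s + (if x = s then 0 else v x)) φ := by
  ext w
  induction w generalizing φ with
  | nil => rw [sb_nil, mon_nil, mon_nil]
  | cons x w ih =>
    rw [sb_cons, ← der_apply x (mon _ φ), der_mon x, der_mon s, der_mon x, smul_apply, ← ih]
    have : (v s • mon v (fun n => φ (n + 1)) + (if x = s then 0 else v x • mon v (fun n => φ (n + 1))))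
        = (v s + (if x = s then 0 else v x)) • mon v (fun n => φ (n + 1)) := by
      split_ifs
      · simp
      · rw [add_smul]
    rw [this, sb_smul, smul_apply]

theorem D_mon (v : Bool → k) (φ : ℕ → k) (w : List Bool) :
    D (mon v φ) w = (w.length + 1 : k) * v true * (w.map v).prod * φ (w.length + 1) := by
  induction w generalizing φ with
  | nil => simp [D_nil, mon]
  | cons x w ih =>
    rw [D_cons, der_mon, D_smul, smul_apply, ih]
    simp [mon]
    ring

end NC

end Pool.Agent.W370.Hughes
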