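import Pool.Agent.W370.Hughes.Sub

set_option autoImplicit false
set_option linter.unusedSectionVars false

/-! # Finitely supported integral functionals on noncommutative power series, as binary trees -/

namespace Pool.Agent.W370.Hughes

open NC

/-- a finitely supported integral functional on words; `N z l r` has value `z` at the current word
and continues with `l` after the letter `X = false`, with `r` after the letter `Y = true`. -/
inductive Tr where
  | Z : Tr
  | N : ℤ → Tr → Tr → Tr

namespace Tr

def add : Tr → Tr → Tr
  | Z, T => T
  | N z l r, Z => N z l r
  | N z l r, N z' l' r' => N (z + z') (add l l') (add r r')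

def smul (a : ℤ) : Tr → Tr
  | Z => Z
  | N z l r => N (a * z) (smul a l) (smul a r)

def isZ : Tr → Bool
  | Z => true
  | N z l r => (z == 0) && (isZ l && isZ r)

/-- support in the words with `i` letters `X` and `j` letters `Y` -/
def sup : Tr → ℕ → ℕ → Bool
  | Z, _, _ => true
  | N z l r, i, j => (z == 0 || (i == 0 && j == 0)) &&
      ((match i with | 0 => isZ l | i' + 1 => sup l i' j) &&
       (match j with | 0 => isZ r | j' + 1 => sup r i j'))

def tr (s : Bool) : Tr → Tr
  | Z => Z
  | N z l r => if s then N z (tr s l) (add (tr s l) (tr s r)) else N z (add (tr s l) (tr s r)) (tr s r)

/-- the functional of a noncrossing matching given by a Dyck word -/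
def mk : List Bool → List Bool → ℤ → Tr
  | [], _, s => N s Z Z
  | (true :: D), st, s => N 0 (mk D (false :: st) s) (mk D (true :: st) s)
  | (false :: _), [], _ => Z
  | (false :: D), (x :: st), s => if x then N 0 (mk D st (-s)) Z else N 0 Z (mk D st s)

def ofDyck : List (List Bool × ℤ) → Tr
  | [] => Z
  | (D, a) :: t => add (smul a (mk D [] 1)) (ofDyck t)

def dyck4 : List (List Bool × ℤ) := [
  ([true, false, true, true, false, false, true, false], 2),
  ([true, false, true, true, false, true, false, false], -1),
  ([true, false, true, true, true, false, false, false], -2),
  ([true, true, false, false, true, true, false, false], 2),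
  ([true, true, false, true, false, false, true, false], -1),
  ([true, true, true, false, false, false, true, false], -2),
  ([true, true, false, true, true, false, false, false], -2),
  ([true, true, true, false, false, true, false, false], -2),
  ([true, true, true, false, true, false, false, false], 1),
  ([true, true, true, true, false, false, false, false], 2)]

def dyck6 : List (List Bool × ℤ) := [
  ([true, false, true, false, true, false, true, true, false, false, true, false], -1155),
  ([true, false, true, false, true, true, true, false, false, false, true, false], -80),
  ([true, false, true, false, true, true, false, true, false, true, false, false], 319),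
  ([true, false, true, false, true, true, false, true, true, false, false, false], 2712),
  ([true, false, true, true, false, false, true, false, true, false, true, false], 3008),
  ([true, false, true, true, false, false, true, false, true, true, false, false], 2406),
  ([true, false, true, true, false, false, true, true, false, false, true, false], -141),
  ([true, false, true, true, false, true, false, false, true, false, true, false], 2843),
  ([true, false, true, true, true, false, false, true, false, false, true, false], 1242),
  ([true, false, true, true, false, true, true, false, false, true, false, false], 2980),
  ([true, false, true, true, true, false, false, true, false, true, false, false], 2969),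
  ([true, false, true, true, true, false, true, true, false, false, false, false], 1488),
  ([true, false, true, true, true, true, true, false, false, false, false, false], -600),
  ([true, true, false, false, true, false, true, false, true, true, false, false], 1400),
  ([true, true, false, false, true, true, true, true, false, false, false, false], 600),
  ([true, true, true, false, false, false, true, true, false, false, true, false], 1050),
  ([true, true, true, false, false, false, true, true, true, false, false, false], -600),
  ([true, true, true, true, false, false, false, false, true, true, false, false], 600),
  ([true, true, true, true, true, false, false, false, false, false, true, false], -600),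
  ([true, true, true, false, true, false, true, false, true, false, false, false], -1520),
  ([true, true, true, false, true, true, false, false, true, false, false, false], -6980),
  ([true, true, true, true, false, true, false, true, false, false, false, false], 1440),
  ([true, true, true, true, true, false, true, false, false, false, false, false], -40),
  ([true, true, true, true, true, true, false, false, false, false, false, false], 600)]



def T4 : Tr := ofDyck dyck4
def T6 : Tr := ofDyck dyck6

theorem T4_tr (s : Bool) : isZ (add (tr s T4) (smul (-1) T4)) = true := by
  cases s <;> decide +kernel
theorem T6_tr (s : Bool) : isZ (add (tr s T6) (smul (-1) T6)) = true := by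
  cases s <;> decide +kernel
theorem T4_sup : sup T4 4 4 = true := by decide +kernel
theorem T6_sup : sup T6 6 6 = true := by decide +kernel

variable {k : Type*} [CommRing k]

def pair : Tr → NC k → k
  | Z, _ => 0
  | N z l r, f => (z : k) * f [] + (pair l (der false f) + pair r (der true f))

theorem pair_add (T : Tr) (f g : NC k) : pair T (f + g) = pair T f + pair T g := by
  induction T generalizing f g with
  | Z => simp [pair]
  | N z l r ihl ihr => simp only [pair, der_add, ihl, ihr, NC.add_apply]; ring

theorem pair_smul (T : Tr) (a : k) (f : NC k) : pair T (a • f) = a * pair T f := by
  induction T generalizing f with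
  | Z => simp [pair]
  | N z l r ihl ihr => simp only [pair, der_smul, ihl, ihr, NC.smul_apply]; ring

theorem pair_zero (T : Tr) : pair T (0 : NC k) = 0 := by
  have := pair_smul T (0 : k) 0
  simpa using this

theorem pair_sum {ι : Type*} (s : Finset ι) (T : Tr) (f : ι → NC k) :
    pair T (∑ i ∈ s, f i) = ∑ i ∈ s, pair T (f i) := by
  classical
  induction s using Finset.induction_on with
  | empty => simp [pair_zero]
  | insert a s ha ih => rw [Finset.sum_insert ha, Finset.sum_insert ha, pair_add, ih]

theorem pair_tadd (T T' : Tr) (f : NC k) : pair (add T T') f = pair T f + pair T' f := by
  induction T generalizing T' f with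
  | Z => simp [pair, add]
  | N z l r ihl ihr =>
    cases T' with
    | Z => simp [pair, add]
    | N z' l' r' => simp only [pair, add, ihl, ihr]; push_cast; ring

theorem pair_tsmul (a : ℤ) (T : Tr) (f : NC k) : pair (smul a T) f = a * pair T f := by
  induction T generalizing f with
  | Z => simp [pair, smul]
  | N z l r ihl ihr => simp only [pair, smul, ihl, ihr]; push_cast; ring

theorem pair_isZ (T : Tr) (h : isZ T = true) (f : NC k) : pair T f = 0 := by
  induction T generalizing f with
  | Z => rfl
  | N z l r ihl ihr =>
    simp only [isZ, Bool.and_eq_true, beq_iff_eq] at h
    simp [pair, h.1, ihl h.2.1, ihr h.2.2]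

theorem pair_tr (s : Bool) (T : Tr) (f : NC k) : pair T (sb s f) = pair (tr s T) f := by
  induction T generalizing f with
  | Z => rfl
  | N z l r ihl ihr =>
    simp only [pair, tr, der_sb, sb_nil]
    cases s
    · simp only [Bool.true_eq_false, if_true, if_false, add_zero, ihl, ihr, pair_add, pair,
        pair_tadd, Bool.false_eq_true]
      ring
    · simp only [Bool.true_eq_false, if_true, if_false, add_zero, ihl, ihr, pair_add, pair,
        pair_tadd, Bool.false_eq_true]
      ring

theorem pair_invariant (T : Tr) (s : Bool) (h : isZ (add (tr s T) (smul (-1) T)) = true)
    (f : NC k) : pair T (sb s f) = pair T f := by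
  have := pair_isZ _ h f
  rw [pair_tadd, pair_tsmul, ← pair_tr] at this
  push_cast at this
  linear_combination this

/-- the value only depends on the coefficients at words with `i` letters `X`, `j` letters `Y` -/
theorem pair_congr (T : Tr) (i j : ℕ) (hT : sup T i j = true) (f g : NC k)
    (h : ∀ w : List Bool, w.count false = i → w.count true = j → f w = g w) :
    pair T f = pair T g := by
  induction T generalizing i j f g with
  | Z => rfl
  | N z l r ihl ihr =>
    simp only [sup, Bool.and_eq_true, Bool.or_eq_true, beq_iff_eq] at hT
    obtain ⟨h0, h1, h2⟩ := hT
    simp only [pair]
    have e0 : (z : k) * f [] = z * g [] := by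
      rcases h0 with h0 | ⟨hi, hj⟩
      · simp [h0]
      · rw [h [] (by simp [hi]) (by simp [hj])]
    have e1 : pair l (der false f) = pair l (der false g) := by
      cases i with
      | zero => rw [pair_isZ l h1, pair_isZ l h1]
      | succ i => exact ihl i j h1 _ _ (fun w hw1 hw2 => h _ (by simp [hw1]) (by simp [hw2]))
    have e2 : pair r (der true f) = pair r (der true g) := by
      cases j with
      | zero => rw [pair_isZ r h2, pair_isZ r h2]
      | succ j => exact ihr i j h2 _ _ (fun w hw1 hw2 => h _ (by simp [hw1]) (by simp [hw2]))
    rw [e0, e1, e2]

theorem pair_eq_zero (T : Tr) (i j : ℕ) (hT : sup T i j = true) (f : NC k)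
    (h : ∀ w : List Bool, w.count false = i → w.count true = j → f w = 0) :
    pair T f = 0 := by
  rw [pair_congr T i j hT f 0 h, pair_zero]

end Tr

end Pool.Agent.W370.Hughes
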